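import Pool.Agent.Hx18.DF.Compl

/-!
Ring maps out of tensor products, and the base change of a local ring along a radicial extension of
its coefficient field.
-/

set_option autoImplicit false
set_option maxHeartbeats 400000

namespace Pool.Agent.Hx18.DF

universe u v w

open scoped TensorProduct

section

variable {k : Type u} {K : Type v} {A : Type w} [CommRing k] [CommRing K] [CommRing A]
  [Algebra k K] [Algebra k A]

/-- the ring map out of a tensor product determined by two compatible ring maps -/
noncomputable def tlift {C : Type*} [CommRing C] (u : K →+* C) (v : A →+* C)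
    (h : ∀ c : k, u (algebraMap k K c) = v (algebraMap k A c)) : K ⊗[k] A →+* C :=
  letI : Algebra k C := (u.comp (algebraMap k K)).toAlgebra
  (Algebra.TensorProduct.productMap (R := k) (A := K) (B := A) (S := C)
    { u with commutes' := fun _ => rfl }
    { v with commutes' := fun c => (h c).symm } : K ⊗[k] A →ₐ[k] C).toRingHom

lemma tlift_tmul {C : Type*} [CommRing C] (u : K →+* C) (v : A →+* C)
    (h : ∀ c : k, u (algebraMap k K c) = v (algebraMap k A c)) (c : K) (a : A) :
    tlift u v h (c ⊗ₜ[k] a) = u c * v a := rfl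

lemma tlift_left {C : Type*} [CommRing C] (u : K →+* C) (v : A →+* C)
    (h : ∀ c : k, u (algebraMap k K c) = v (algebraMap k A c)) (c : K) :
    tlift u v h (c ⊗ₜ[k] (1 : A)) = u c := by rw [tlift_tmul, map_one, mul_one]

lemma tlift_right {C : Type*} [CommRing C] (u : K →+* C) (v : A →+* C)
    (h : ∀ c : k, u (algebraMap k K c) = v (algebraMap k A c)) (a : A) :
    tlift u v h ((1 : K) ⊗ₜ[k] a) = v a := by rw [tlift_tmul, map_one, one_mul]

lemma tmul_eq (c : K) (a : A) : (c ⊗ₜ[k] a) = (c ⊗ₜ[k] (1 : A)) * ((1 : K) ⊗ₜ[k] a) := by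
  rw [Algebra.TensorProduct.tmul_mul_tmul, mul_one, one_mul]

lemma algebraMap_tmul_one (c : k) :
    (algebraMap k K c) ⊗ₜ[k] (1 : A) = (1 : K) ⊗ₜ[k] (algebraMap k A c) := by
  rw [Algebra.algebraMap_eq_smul_one, Algebra.algebraMap_eq_smul_one, TensorProduct.smul_tmul]

/-- the right inclusion as a ring map -/
noncomputable abbrev inR (k : Type u) (K : Type v) (A : Type w) [CommRing k] [CommRing K]
    [CommRing A] [Algebra k K] [Algebra k A] : A →+* K ⊗[k] A :=
  (Algebra.TensorProduct.includeRight : A →ₐ[k] K ⊗[k] A).toRingHom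

/-- the left inclusion as a ring map -/
noncomputable abbrev inL (k : Type u) (K : Type v) (A : Type w) [CommRing k] [CommRing K]
    [CommRing A] [Algebra k K] [Algebra k A] : K →+* K ⊗[k] A :=
  (Algebra.TensorProduct.includeLeft : K →ₐ[k] K ⊗[k] A).toRingHom

lemma inR_apply (a : A) : inR k K A a = (1 : K) ⊗ₜ[k] a := rfl
lemma inL_apply (c : K) : inL k K A c = c ⊗ₜ[k] (1 : A) := rfl

end

section

open IsLocalRing

variable {k : Type u} {K : Type v} {A : Type w} [CommRing k] [Field K] [CommRing A]
  [Algebra k K] [Algebra k A]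

lemma exists_pow_eq_inR (p : ℕ) [Fact p.Prime] [CharP (K ⊗[k] A) p]
    (hrad : ∀ c : K, ∃ (e : ℕ) (y : k), algebraMap k K y = c ^ p ^ e) (z : K ⊗[k] A) :
    ∃ (e : ℕ) (a : A), z ^ p ^ e = (1 : K) ⊗ₜ[k] a := by
  induction z using TensorProduct.induction_on with
  | zero => exact ⟨0, 0, by simp⟩
  | tmul c a =>
    obtain ⟨e, y, hy⟩ := hrad c
    refine ⟨e, algebraMap k A y * a ^ p ^ e, ?_⟩
    rw [Algebra.TensorProduct.tmul_pow, ← hy, tmul_eq, algebraMap_tmul_one,
      Algebra.TensorProduct.tmul_mul_tmul, one_mul]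
  | add x y hx hy =>
    obtain ⟨e, a, ha⟩ := hx
    obtain ⟨e', b, hb⟩ := hy
    refine ⟨e + e', a ^ p ^ e' + b ^ p ^ e, ?_⟩
    have h1 : x ^ p ^ (e + e') = (1 : K) ⊗ₜ[k] (a ^ p ^ e') := by
      rw [pow_add, pow_mul, ha, Algebra.TensorProduct.tmul_pow, one_pow]
    have h2 : y ^ p ^ (e + e') = (1 : K) ⊗ₜ[k] (b ^ p ^ e) := by
      rw [add_comm e e', pow_add, pow_mul, hb, Algebra.TensorProduct.tmul_pow, one_pow]
    rw [add_pow_char_pow, h1, h2, ← TensorProduct.tmul_add]

/-- The base change of a local ring along a radicial extension of a coefficient field is local. -/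
theorem isLocalRing_tensor [IsLocalRing A] (p : ℕ) [Fact p.Prime] [CharP K p]
    (hk : Function.Bijective fun c : k => residue A (algebraMap k A c))
    (hrad : ∀ c : K, ∃ (e : ℕ) (y : k), algebraMap k K y = c ^ p ^ e)
    {n : ℕ} (x : Fin n → A) (hx : Ideal.span (Set.range x) = maximalIdeal A) :
    ∃ h : IsLocalRing (K ⊗[k] A), CharP (K ⊗[k] A) p ∧
      @IsLocalRing.maximalIdeal (K ⊗[k] A) _ h =
        Ideal.span (Set.range fun i => (1 : K) ⊗ₜ[k] x i) := by
  let e : k ≃+* ResidueField A :=
    RingEquiv.ofBijective ((residue A).comp (algebraMap k A)) hk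
  have he : ∀ c : k, e.symm (residue A (algebraMap k A c)) = c := fun c => e.symm_apply_apply c
  let r : A →+* k := (e.symm : ResidueField A →+* k).comp (residue A)
  have hr : ∀ c : k, r (algebraMap k A c) = c := he
  let ψ : K ⊗[k] A →+* K := tlift (RingHom.id K) ((algebraMap k K).comp r) (by
    intro c
    rw [RingHom.comp_apply, hr]
    rfl)
  have hψ : ∀ (c : K) (a : A), ψ (c ⊗ₜ[k] a) = c * algebraMap k K (r a) := fun c a => rfl
  have hnt : Nontrivial (K ⊗[k] A) := ψ.domain_nontrivial
  have hchar : CharP (K ⊗[k] A) p :=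
    charP_of_injective_algebraMap (algebraMap K (K ⊗[k] A)).injective p
  have hloc : IsLocalHom ψ := by
    refine ⟨fun z hz => ?_⟩
    obtain ⟨m, a, ha⟩ := exists_pow_eq_inR p hrad z
    have h1 : IsUnit (ψ (z ^ p ^ m)) := by
      rw [map_pow]; exact hz.pow _
    rw [ha, hψ, one_mul] at h1
    have h2 : IsUnit a := by
      by_contra hna
      have h3 : residue A a = 0 := by
        rw [residue_eq_zero_iff]
        exact hna
      have h4 : r a = 0 := by
        change e.symm (residue A a) = 0
        rw [h3, map_zero]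
      rw [h4, map_zero] at h1
      exact not_isUnit_zero h1
    have h5 : IsUnit (z ^ p ^ m) := by
      rw [ha]; exact h2.map (inR k K A)
    exact (isUnit_pow_iff (pow_ne_zero _ (Fact.out : p.Prime).ne_zero)).1 h5
  have hlr : IsLocalRing (K ⊗[k] A) := ψ.domain_isLocalRing
  refine ⟨hlr, hchar, ?_⟩
  have hmax : maximalIdeal (K ⊗[k] A) = RingHom.ker ψ := by
    ext z
    rw [mem_maximalIdeal, mem_nonunits_iff, RingHom.mem_ker]
    constructor
    · intro h
      by_contra h0
      exact h (hloc.map_nonunit z (isUnit_iff_ne_zero.2 h0))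
    · intro h hu
      have := hu.map ψ
      rw [h] at this
      exact not_isUnit_zero this
  rw [hmax]
  apply le_antisymm
  · have key : ∀ z : K ⊗[k] A, z - (ψ z) ⊗ₜ[k] (1 : A) ∈
        Ideal.span (Set.range fun i => (1 : K) ⊗ₜ[k] x i) := by
      intro z
      induction z using TensorProduct.induction_on with
      | zero => rw [map_zero, TensorProduct.zero_tmul, sub_zero]; exact Ideal.zero_mem _
      | tmul c a =>
        have h1 : a - algebraMap k A (r a) ∈ maximalIdeal A := by
          rw [← residue_eq_zero_iff, map_sub, sub_eq_zero]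
          exact (e.apply_symm_apply (residue A a)).symm
        have h2 : (1 : K) ⊗ₜ[k] (a - algebraMap k A (r a)) ∈
            Ideal.span (Set.range fun i => (1 : K) ⊗ₜ[k] x i) := by
          have h3 := Ideal.mem_map_of_mem (inR k K A) h1
          rw [← hx, Ideal.map_span, ← Set.range_comp] at h3
          exact h3
        have h4 : c ⊗ₜ[k] a - (ψ (c ⊗ₜ[k] a)) ⊗ₜ[k] (1 : A) =
            (c ⊗ₜ[k] (1 : A)) * ((1 : K) ⊗ₜ[k] (a - algebraMap k A (r a))) := by
          rw [Algebra.TensorProduct.tmul_mul_tmul, mul_one, one_mul, TensorProduct.tmul_sub, hψ]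
          congr 1
          rw [← mul_one (c * algebraMap k K (r a)), mul_one,
            tmul_eq c (algebraMap k A (r a)), ← algebraMap_tmul_one,
            Algebra.TensorProduct.tmul_mul_tmul, mul_one]
        rw [h4]
        exact Ideal.mul_mem_left _ _ h2
      | add y z hy hz =>
        have h1 := Ideal.add_mem _ hy hz
        rw [map_add, TensorProduct.add_tmul, add_sub_add_comm]
        exact h1
    intro z hz
    have h1 := key z
    rw [RingHom.mem_ker] at hz
    rw [hz, TensorProduct.zero_tmul, sub_zero] at h1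
    exact h1
  · rw [Ideal.span_le]
    rintro _ ⟨i, rfl⟩
    rw [SetLike.mem_coe, RingHom.mem_ker]
    change ψ ((1 : K) ⊗ₜ[k] x i) = 0
    have h3 : residue A (x i) = 0 := by
      rw [residue_eq_zero_iff, ← hx]
      exact Ideal.subset_span ⟨i, rfl⟩
    have h4 : r (x i) = 0 := by
      change e.symm (residue A (x i)) = 0
      rw [h3, map_zero]
    rw [hψ, h4, map_zero, mul_zero]

end

end Pool.Agent.Hx18.DF
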