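import Pool.Agent.Hx18.DF.Present
import Pool.Agent.Hx18.DF.Tens

/-!
The decompleted Frobenius of a complete local ring presented by power series with coefficients in a
subring receiving the Frobenius.
-/

set_option autoImplicit false
set_option maxHeartbeats 1000000
set_option synthInstance.maxHeartbeats 200000

namespace Pool.Agent.Hx18.DF

universe u v w

open scoped TensorProduct

section

variable {k₁ : Type u} {k : Type u} {A : Type u} [CommRing k₁] [CommRing k] [CommRing A]
  [Algebra k₁ k] [Algebra k A] [Algebra k₁ A] [IsScalarTower k₁ k A]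
  {n : ℕ} (π : MvPowerSeries (Fin n) k →+* A)
  (hπC : ∀ c, π (MvPowerSeries.C c) = algebraMap k A c)

/-- the subalgebra of values of power series with coefficients in `k₁` -/
noncomputable def subA : Subalgebra k₁ A :=
  { (π.comp (MvPowerSeries.map (σ := Fin n) (algebraMap k₁ k))).range.toSubsemiring with
    algebraMap_mem' := fun c => ⟨MvPowerSeries.C c, by
      rw [RingHom.comp_apply, MvPowerSeries.map_C, hπC, ← IsScalarTower.algebraMap_apply]⟩ }

lemma mem_subA (a : A) : a ∈ subA (k₁ := k₁) π hπC ↔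
    ∃ r : MvPowerSeries (Fin n) k₁, π (MvPowerSeries.map (algebraMap k₁ k) r) = a := Iff.rfl

/-- evaluation of power series with coefficients in `k₁` -/
noncomputable def rho : MvPowerSeries (Fin n) k₁ →+* subA (k₁ := k₁) π hπC :=
  (π.comp (MvPowerSeries.map (σ := Fin n) (algebraMap k₁ k))).codRestrict
    (subA (k₁ := k₁) π hπC) (fun r => ⟨r, rfl⟩)

lemma coe_rho (r : MvPowerSeries (Fin n) k₁) :
    (rho π hπC r : A) = π (MvPowerSeries.map (algebraMap k₁ k) r) := rfl

lemma rho_surjective : Function.Surjective (rho (k₁ := k₁) π hπC) := by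
  rintro ⟨a, r, hr⟩
  exact ⟨r, Subtype.ext hr⟩

lemma rho_C (c : k₁) : rho π hπC (MvPowerSeries.C c) =
    algebraMap k₁ (subA (k₁ := k₁) π hπC) c := by
  apply Subtype.ext
  rw [coe_rho, MvPowerSeries.map_C, hπC, ← IsScalarTower.algebraMap_apply]
  rfl

end

section

variable (p : ℕ) [hp : Fact p.Prime] {k₁ : Type u} {k : Type u} {A : Type u} {K : Type u}
  [CommRing k₁] [CommRing k] [CommRing A] [Field K]
  [Algebra k₁ k] [Algebra k A] [Algebra k₁ A] [IsScalarTower k₁ k A]
  [Algebra k K] [Algebra k₁ K] [IsScalarTower k₁ k K]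
  [CharP k p] [CharP A p] [CharP K p]
  {n : ℕ} (π : MvPowerSeries (Fin n) k →+* A)
  (hπC : ∀ c, π (MvPowerSeries.C c) = algebraMap k A c)
  (hπ : Function.Surjective π)
  (φ : k →+* k₁) (hφ : ∀ x, algebraMap k₁ k (φ x) = x ^ p)

include hπ hφ in
omit [CharP A p] in
lemma pow_mem_subA (a : A) : a ^ p ∈ subA (k₁ := k₁) π hπC := by
  obtain ⟨r, rfl⟩ := hπ a
  refine ⟨MvPowerSeries.map φ (MvPowerSeries.expand p hp.out.ne_zero r), ?_⟩
  rw [RingHom.comp_apply, map_map_expand hp.out.ne_zero (algebraMap k₁ k) φ hφ, map_pow]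

/-- Frobenius with values in the subalgebra -/
noncomputable def frobA : A →+* subA (k₁ := k₁) π hπC :=
  (frobenius A p).codRestrict (subA (k₁ := k₁) π hπC)
    (fun a => pow_mem_subA p π hπC hπ φ hφ a)

lemma coe_frobA (a : A) : (frobA p π hπC hπ φ hφ a : A) = a ^ p := rfl

lemma frobA_pi (r : MvPowerSeries (Fin n) k) : frobA p π hπC hπ φ hφ (π r) =
    rho π hπC (MvPowerSeries.map φ (MvPowerSeries.expand p hp.out.ne_zero r)) := by
  apply Subtype.ext
  rw [coe_frobA, coe_rho, map_map_expand hp.out.ne_zero (algebraMap k₁ k) φ hφ, map_pow]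

/-- the decompleted Frobenius -/
noncomputable def decFrob : K ⊗[k] A →+* K ⊗[k₁] (subA (k₁ := k₁) π hπC) :=
  tlift ((inL k₁ K (subA (k₁ := k₁) π hπC)).comp (frobenius K p))
    ((inR k₁ K (subA (k₁ := k₁) π hπC)).comp (frobA p π hπC hπ φ hφ)) (by
      intro c
      have h1 : frobenius K p (algebraMap k K c) = algebraMap k₁ K (φ c) := by
        rw [frobenius_def, ← map_pow, ← hφ, ← IsScalarTower.algebraMap_apply]
      have h2 : frobA p π hπC hπ φ hφ (algebraMap k A c) =
          algebraMap k₁ (subA (k₁ := k₁) π hπC) (φ c) := by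
        apply Subtype.ext
        rw [coe_frobA, ← map_pow, ← hφ, ← IsScalarTower.algebraMap_apply]
        rfl
      rw [RingHom.comp_apply, RingHom.comp_apply, h1, h2, inL_apply, inR_apply,
        algebraMap_tmul_one])

lemma decFrob_tmul (c : K) (a : A) : decFrob p π hπC hπ φ hφ (c ⊗ₜ[k] a) =
    (c ^ p) ⊗ₜ[k₁] (frobA p π hπC hπ φ hφ a) := by
  rw [decFrob, tlift_tmul, RingHom.comp_apply, RingHom.comp_apply, inL_apply, inR_apply, ← tmul_eq]
  rfl

variable (K) in
/-- the comparison map -/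
noncomputable def compar : K ⊗[k₁] (subA (k₁ := k₁) π hπC) →+* K ⊗[k] A :=
  tlift (inL k K A) ((inR k K A).comp (subA (k₁ := k₁) π hπC).val.toRingHom) (by
    intro c
    rw [IsScalarTower.algebraMap_apply k₁ k K, inL_apply, algebraMap_tmul_one, RingHom.comp_apply,
      inR_apply]
    congr 1
    change algebraMap k A (algebraMap k₁ k c) = algebraMap k₁ A c
    rw [← IsScalarTower.algebraMap_apply])

lemma compar_tmul (c : K) (a : subA (k₁ := k₁) π hπC) :
    compar K π hπC (c ⊗ₜ[k₁] a) = c ⊗ₜ[k] (a : A) := by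
  rw [compar, tlift_tmul, RingHom.comp_apply, inL_apply, inR_apply, ← tmul_eq]
  rfl

lemma compar_decFrob [CharP (K ⊗[k] A) p] (z : K ⊗[k] A) :
    compar K π hπC (decFrob p π hπC hπ φ hφ z) = z ^ p := by
  induction z using TensorProduct.induction_on with
  | zero => rw [map_zero, map_zero, zero_pow hp.out.ne_zero]
  | tmul c a => rw [decFrob_tmul, compar_tmul, coe_frobA, Algebra.TensorProduct.tmul_pow]
  | add x y hx hy => rw [map_add, map_add, hx, hy, add_pow_char]

/-- finiteness of the decompleted Frobenius -/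
lemma decFrob_finite (hK : ∀ c : K, ∃ d : K, d ^ p = c) (G : Finset k₁)
    (hG : ∀ c : k₁, ∃ h : k₁ → k, c = ∑ g ∈ G, g * φ (h g)) :
    (decFrob (K := K) p π hπC hπ φ hφ).Finite := by
  classical
  let B := K ⊗[k₁] (subA (k₁ := k₁) π hπC)
  let _ : Algebra (K ⊗[k] A) B := (decFrob (K := K) p π hπC hπ φ hφ).toAlgebra
  change Module.Finite (K ⊗[k] A) B
  let b : (Fin n →₀ ℕ) → B := fun γ => (1 : K) ⊗ₜ[k₁] (rho π hπC (MvPowerSeries.monomial γ 1))
  refine ⟨⟨(box n p).image b, ?_⟩⟩
  rw [eq_top_iff]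
  intro z _
  induction z using TensorProduct.induction_on with
  | zero => exact Submodule.zero_mem _
  | add x y hx hy => exact Submodule.add_mem _ (hx trivial) (hy trivial)
  | tmul c a =>
    obtain ⟨r, rfl⟩ := rho_surjective π hπC a
    obtain ⟨R, hR⟩ := exists_decomp hp.out.ne_zero φ G hG r
    rw [hR, map_sum, TensorProduct.tmul_sum]
    refine Submodule.sum_mem _ fun g _ => ?_
    rw [map_sum, TensorProduct.tmul_sum]
    refine Submodule.sum_mem _ fun γ hγ => ?_
    obtain ⟨d, hd⟩ := hK (c * algebraMap k₁ K g)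
    have h1 : (c ⊗ₜ[k₁] (rho π hπC (MvPowerSeries.C g * MvPowerSeries.monomial γ 1 *
        MvPowerSeries.map φ (MvPowerSeries.expand p hp.out.ne_zero (R g γ)))) : B) =
        (d ⊗ₜ[k] (π (R g γ)) : K ⊗[k] A) • b γ := by
      rw [Algebra.smul_def]
      change _ = decFrob (K := K) p π hπC hπ φ hφ (d ⊗ₜ[k] (π (R g γ))) * b γ
      rw [decFrob_tmul, hd, frobA_pi, map_mul, map_mul, rho_C]
      change _ = _ * ((1 : K) ⊗ₜ[k₁] (rho π hπC (MvPowerSeries.monomial γ 1)))
      rw [Algebra.TensorProduct.tmul_mul_tmul, mul_one]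
      rw [tmul_eq (k := k₁) (c * algebraMap k₁ K g)]
      have h2 : ((c * algebraMap k₁ K g) ⊗ₜ[k₁] (1 : subA (k₁ := k₁) π hπC)) =
          (c ⊗ₜ[k₁] (algebraMap k₁ (subA (k₁ := k₁) π hπC) g)) := by
        rw [tmul_eq (k := k₁) c (algebraMap k₁ (subA (k₁ := k₁) π hπC) g), ← algebraMap_tmul_one,
          Algebra.TensorProduct.tmul_mul_tmul, mul_one]
      rw [h2, Algebra.TensorProduct.tmul_mul_tmul, mul_one]
      congr 1
      ring
    rw [h1]
    refine Submodule.smul_mem _ _ (Submodule.subset_span ?_)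
    exact Finset.mem_coe.2 (Finset.mem_image_of_mem b hγ)

variable (K) in
/-- polynomials are in the image of the comparison map -/
lemma exists_compar_poly (q : MvPolynomial (Fin n) k) :
    ∃ b : K ⊗[k₁] (subA (k₁ := k₁) π hπC),
      compar K π hπC b = (1 : K) ⊗ₜ[k] (π (q : MvPowerSeries (Fin n) k)) := by
  induction q using MvPolynomial.induction_on with
  | C c =>
    refine ⟨(algebraMap k K c) ⊗ₜ[k₁] 1, ?_⟩
    rw [compar_tmul, MvPolynomial.coe_C, hπC, ← algebraMap_tmul_one]
    rfl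
  | add a b ha hb =>
    obtain ⟨x, hx⟩ := ha
    obtain ⟨y, hy⟩ := hb
    refine ⟨x + y, ?_⟩
    rw [map_add, hx, hy, MvPolynomial.coe_add, map_add, TensorProduct.tmul_add]
  | mul_X a i ha =>
    obtain ⟨x, hx⟩ := ha
    refine ⟨x * ((1 : K) ⊗ₜ[k₁] (rho π hπC (MvPowerSeries.X i))), ?_⟩
    rw [map_mul, hx, compar_tmul, coe_rho, MvPowerSeries.map_X, MvPolynomial.coe_mul,
      MvPolynomial.coe_X, map_mul, Algebra.TensorProduct.tmul_mul_tmul, one_mul]

include hπ hπC in
omit [Algebra k₁ A] [IsScalarTower k₁ k A] in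
/-- construction of ring maps out of the base change -/
lemma exists_psi {m : ℕ} (f : Fin m → MvPowerSeries (Fin n) k₁)
    (hf : RingHom.ker π = Ideal.span (Set.range fun j => MvPowerSeries.map (algebraMap k₁ k) (f j)))
    {T : Type u} [CommRing T] (u : K →+* T) (w : MvPowerSeries (Fin n) k₁ →+* T)
    (hw : ∀ c, w (MvPowerSeries.C c) = u (algebraMap k₁ K c)) (hwf : ∀ j, w (f j) = 0) (e : ℕ)
    (hnil : (Ideal.span (Set.range fun i => w (MvPowerSeries.X i))) ^ e = ⊥) :
    ∃ Ψ : K ⊗[k] A →+* T, ∀ (c : K) (r : MvPowerSeries (Fin n) k₁),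
      Ψ (c ⊗ₜ[k] π (MvPowerSeries.map (algebraMap k₁ k) r)) = u c * w r := by
  let ev₀ : MvPowerSeries (Fin n) k →+* T :=
    evalNil e (u.comp (algebraMap k K)) (fun i => w (MvPowerSeries.X i)) hnil
  have hcl1 : ev₀.comp (MvPowerSeries.map (algebraMap k₁ k)) = w := by
    apply ringHom_ext_of_pow _ _ e
    · intro c
      rw [RingHom.comp_apply, MvPowerSeries.map_C, evalNil_C, RingHom.comp_apply,
        ← IsScalarTower.algebraMap_apply, hw]
    · intro i
      rw [RingHom.comp_apply, MvPowerSeries.map_X, evalNil_X]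
    · intro r hr
      have h4 := map_pow_vars_le (ev₀.comp (MvPowerSeries.map (algebraMap k₁ k)))
        (fun i => w (MvPowerSeries.X i)) (fun i => by
          rw [RingHom.comp_apply, MvPowerSeries.map_X, evalNil_X]) e r hr
      rw [hnil] at h4
      exact Ideal.mem_bot.1 h4
    · intro r hr
      have h4 := map_pow_vars_le w (fun i => w (MvPowerSeries.X i)) (fun i => rfl) e r hr
      rw [hnil] at h4
      exact Ideal.mem_bot.1 h4
  have hker : RingHom.ker π ≤ RingHom.ker ev₀ := by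
    rw [hf, Ideal.span_le]
    rintro _ ⟨i, rfl⟩
    rw [SetLike.mem_coe, RingHom.mem_ker]
    change ev₀ (MvPowerSeries.map (algebraMap k₁ k) (f i)) = 0
    rw [← RingHom.comp_apply, hcl1, hwf]
  let ev : A →+* T := RingHom.liftOfSurjective π hπ ⟨ev₀, hker⟩
  have hev : ∀ r, ev (π r) = ev₀ r := fun r =>
    RingHom.liftOfSurjective_comp_apply π hπ ⟨ev₀, hker⟩ r
  refine ⟨tlift u ev (fun c => ?_), fun c r => ?_⟩
  · rw [← hπC, hev, evalNil_C]
    rfl
  · rw [tlift_tmul, hev, ← RingHom.comp_apply ev₀, hcl1]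

end

section

/-- Abstract comparison. -/
lemma abstract_compl {B : Type u} {A' : Type v} [CommRing B] [CommRing A'] (p : ℕ) (hp : 0 < p)
    (F₁ : A' →+* B) (j : B →+* A') (hjF : ∀ z, j (F₁ z) = z ^ p) {n : ℕ} (m' : Ideal A')
    (x' : Fin n → A') (hm' : m' = Ideal.span (Set.range x')) (y : Fin n → B)
    (hy : ∀ i, (y i) ^ p = F₁ (x' i))
    (hΨ : ∀ (T : Type u) [CommRing T] (q : B →+* T) (e : ℕ),
      (Ideal.span (Set.range fun i => q (y i))) ^ e = ⊥ →
      ∃ Ψ : A' →+* T, ∀ b, Ψ (j b) = q b)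
    (h3 : ∀ (e : ℕ) (z : A'), ∃ b : B, z - j b ∈ m' ^ e) :
    ∃ h : (m'.map F₁).map j ≤ m', Function.Bijective (complMap (m'.map F₁) m' j h) := by
  let I : Ideal B := m'.map F₁
  have hI : I.map j ≤ m' := by
    rw [Ideal.map_map, Ideal.map_le_iff_le_comap]
    intro z hz
    rw [Ideal.mem_comap, RingHom.comp_apply, hjF]
    exact Ideal.pow_mem_of_mem _ hz _ hp
  have hfg : m'.FG := by
    rw [hm']
    exact ⟨(Set.finite_range _).toFinset, by rw [Set.Finite.coe_toFinset]⟩
  have h1 : ∀ N : ℕ, ∃ e : ℕ, m' ^ e ≤ (I ^ N).map j := by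
    intro N
    have h2 : m' ≤ (I.map j).radical := by
      intro z hz
      refine ⟨p, ?_⟩
      rw [← hjF]
      exact Ideal.mem_map_of_mem _ (Ideal.mem_map_of_mem _ hz)
    obtain ⟨e, he⟩ := Ideal.exists_pow_le_of_le_radical_of_fg h2 hfg
    refine ⟨e * N, ?_⟩
    rw [pow_mul, Ideal.map_pow]
    exact Ideal.pow_right_mono he N
  have h1B : ∀ N : ℕ, ∃ e : ℕ, (Ideal.span (Set.range y)) ^ e ≤ I ^ N := by
    intro N
    have h2 : Ideal.span (Set.range y) ≤ I.radical := by
      rw [Ideal.span_le]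
      rintro _ ⟨i, rfl⟩
      refine ⟨p, ?_⟩
      rw [hy]
      apply Ideal.mem_map_of_mem
      rw [hm']
      exact Ideal.subset_span ⟨i, rfl⟩
    obtain ⟨e, he⟩ := Ideal.exists_pow_le_of_le_radical_of_fg h2
      ⟨(Set.finite_range y).toFinset, by rw [Set.Finite.coe_toFinset]⟩
    refine ⟨e * N, ?_⟩
    rw [pow_mul]
    exact Ideal.pow_right_mono he N
  refine ⟨hI, complMap_bijective I m' j hI h1 ?_ ?_⟩
  · intro N b hb
    obtain ⟨e, he⟩ := h1B N
    have hnil : (Ideal.span (Set.range fun i => (Ideal.Quotient.mk (I ^ N)) (y i))) ^ e = ⊥ := by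
      have h3 : (Set.range fun i => (Ideal.Quotient.mk (I ^ N)) (y i)) =
          (Ideal.Quotient.mk (I ^ N)) '' (Set.range y) := by
        rw [← Set.range_comp]; rfl
      rw [h3, ← Ideal.map_span, ← Ideal.map_pow (Ideal.Quotient.mk (I ^ N)), eq_bot_iff]
      refine (Ideal.map_mono (f := Ideal.Quotient.mk (I ^ N)) he).trans ?_
      rw [Ideal.map_quotient_self]
    obtain ⟨Ψ, hΨ'⟩ := hΨ (B ⧸ I ^ N) (Ideal.Quotient.mk (I ^ N)) e hnil
    have hle : (I ^ N).map j ≤ RingHom.ker Ψ := by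
      rw [Ideal.map_le_iff_le_comap]
      intro i hi
      rw [Ideal.mem_comap, RingHom.mem_ker, hΨ']
      exact Ideal.Quotient.eq_zero_iff_mem.2 hi
    have h3 := hle hb
    rw [RingHom.mem_ker, hΨ'] at h3
    exact Ideal.Quotient.eq_zero_iff_mem.1 h3
  · intro N z
    obtain ⟨e, he⟩ := h1 N
    obtain ⟨b, hb⟩ := h3 e z
    exact ⟨b, he hb⟩

variable (p : ℕ) [hp : Fact p.Prime] {k₁ : Type u} {k : Type u} {A : Type u} {K : Type u}
  [CommRing k₁] [CommRing k] [CommRing A] [Field K]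
  [Algebra k₁ k] [Algebra k A] [Algebra k₁ A] [IsScalarTower k₁ k A]
  [Algebra k K] [Algebra k₁ K] [IsScalarTower k₁ k K]
  [CharP k p] [CharP A p] [CharP K p]
  {n : ℕ} (π : MvPowerSeries (Fin n) k →+* A)
  (hπC : ∀ c, π (MvPowerSeries.C c) = algebraMap k A c)
  (hπ : Function.Surjective π)
  (φ : k →+* k₁) (hφ : ∀ x, algebraMap k₁ k (φ x) = x ^ p)

/-- The main comparison: the comparison map induces a bijection on completions. -/
theorem compar_bijective [CharP (K ⊗[k] A) p] {m : ℕ} (f : Fin m → MvPowerSeries (Fin n) k₁)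
    (hf : RingHom.ker π = Ideal.span (Set.range fun j => MvPowerSeries.map (algebraMap k₁ k) (f j)))
    (m' : Ideal (K ⊗[k] A))
    (hm' : m' = Ideal.span (Set.range fun i => (1 : K) ⊗ₜ[k] π (MvPowerSeries.X i))) :
    ∃ h : (m'.map (decFrob (K := K) p π hπC hπ φ hφ)).map (compar K π hπC) ≤ m',
      Function.Bijective (complMap (m'.map (decFrob (K := K) p π hπC hπ φ hφ)) m'
        (compar K π hπC) h) := by
  refine abstract_compl p hp.out.pos (decFrob (K := K) p π hπC hπ φ hφ) (compar K π hπC)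
    (compar_decFrob p π hπC hπ φ hφ) m' _ hm'
    (fun i => (1 : K) ⊗ₜ[k₁] (rho π hπC (MvPowerSeries.X i))) ?_ ?_ ?_
  · intro i
    rw [decFrob_tmul, frobA_pi, MvPowerSeries.expand_X, map_pow, MvPowerSeries.map_X,
      Algebra.TensorProduct.tmul_pow, map_pow]
  · intro T _ q e hnil
    obtain ⟨Ψ, hΨ⟩ := exists_psi (K := K) π hπC hπ f hf
      (q.comp (inL k₁ K (subA (k₁ := k₁) π hπC)))
      (q.comp ((inR k₁ K (subA (k₁ := k₁) π hπC)).comp (rho π hπC)))
      (by
        intro c
        rw [RingHom.comp_apply, RingHom.comp_apply, RingHom.comp_apply, rho_C, inL_apply,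
          inR_apply, algebraMap_tmul_one])
      (by
        intro i
        have h5 : rho π hπC (f i) = 0 := by
          apply Subtype.ext
          rw [coe_rho]
          have h6 : MvPowerSeries.map (algebraMap k₁ k) (f i) ∈ RingHom.ker π := by
            rw [hf]; exact Ideal.subset_span ⟨i, rfl⟩
          exact h6
        rw [RingHom.comp_apply, RingHom.comp_apply, h5, map_zero, map_zero])
      e hnil
    refine ⟨Ψ, fun b => ?_⟩
    induction b using TensorProduct.induction_on with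
    | zero => rw [map_zero, map_zero, map_zero]
    | add x y hx hy => rw [map_add, map_add, map_add, hx, hy]
    | tmul c a =>
      obtain ⟨r, rfl⟩ := rho_surjective π hπC a
      rw [compar_tmul, coe_rho, hΨ, RingHom.comp_apply, RingHom.comp_apply, RingHom.comp_apply,
        inL_apply, inR_apply, ← map_mul, ← tmul_eq]
  · intro e z
    induction z using TensorProduct.induction_on with
    | zero => exact ⟨0, by rw [map_zero, sub_zero]; exact Ideal.zero_mem _⟩
    | add x y hx hy =>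
      obtain ⟨b, hb⟩ := hx
      obtain ⟨b', hb'⟩ := hy
      refine ⟨b + b', ?_⟩
      rw [map_add, add_sub_add_comm]
      exact Ideal.add_mem _ hb hb'
    | tmul c a =>
      obtain ⟨r, rfl⟩ := hπ a
      obtain ⟨b, hb⟩ := exists_compar_poly (k₁ := k₁) K π hπC (MvPowerSeries.truncTotal e r)
      refine ⟨(c ⊗ₜ[k₁] 1) * b, ?_⟩
      have h4 : compar K π hπC ((c ⊗ₜ[k₁] 1) * b) = (c ⊗ₜ[k] (1 : A)) * ((1 : K) ⊗ₜ[k]
          (π ((MvPowerSeries.truncTotal e r : MvPolynomial (Fin n) k) :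
            MvPowerSeries (Fin n) k))) := by
        rw [map_mul, hb, compar_tmul]
        rfl
      rw [h4, tmul_eq c (π r), ← mul_sub, ← TensorProduct.tmul_sub, ← map_sub]
      refine Ideal.mul_mem_left _ _ ?_
      have h5 := map_pow_vars_le ((inR k K A).comp π)
        (fun i => (1 : K) ⊗ₜ[k] π (MvPowerSeries.X i)) (fun i => rfl) e _
        (sub_truncTotal_mem r e)
      rw [← hm'] at h5
      exact h5

end

end Pool.Agent.Hx18.DF
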