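import Mathlib

/-!
Maps induced on adic completions, and a criterion for such a map to be bijective.
-/

set_option autoImplicit false
set_option maxHeartbeats 400000

namespace Pool.Agent.Hx18.DF

universe u v w

section

variable {R : Type u} {S : Type v} [CommRing R] [CommRing S]

lemma pow_le_comap_pow (I : Ideal R) (J : Ideal S) (j : R →+* S) (h : I.map j ≤ J) (n : ℕ) :
    I ^ n ≤ (J ^ n).comap j := by
  rw [← Ideal.map_le_iff_le_comap, Ideal.map_pow]
  exact Ideal.pow_right_mono h n

lemma sub_mem_of_isAdicCauchy (I : Ideal R) (a : AdicCompletion.AdicCauchySequence I R)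
    {m n : ℕ} (h : m ≤ n) : a m - a n ∈ I ^ m := by
  have h1 := a.property h
  rw [SModEq.sub_mem] at h1
  simpa using h1

lemma exists_seq (I : Ideal R) (x : AdicCompletion I R) :
    ∃ a : ℕ → R, (∀ m n, m ≤ n → a m - a n ∈ I ^ m) ∧
      ∀ n, AdicCompletion.evalₐ I n x = Ideal.Quotient.mk (I ^ n) (a n) := by
  obtain ⟨a, rfl⟩ := AdicCompletion.mk_surjective I R x
  exact ⟨fun n => a n, fun m n h => sub_mem_of_isAdicCauchy I a h,
    fun n => AdicCompletion.evalₐ_mk I n a⟩

lemma exists_of_seq (I : Ideal R) (a : ℕ → R) (ha : ∀ n, a n - a (n + 1) ∈ I ^ n) :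
    ∃ x : AdicCompletion I R, ∀ n, AdicCompletion.evalₐ I n x = Ideal.Quotient.mk (I ^ n) (a n) := by
  refine ⟨AdicCompletion.mk I R (AdicCompletion.AdicCauchySequence.mk I R a ?_), ?_⟩
  · intro n
    rw [SModEq.sub_mem]
    simpa using ha n
  · intro n
    rw [AdicCompletion.evalₐ_mk]
    rfl

lemma complMap_compat (I : Ideal R) (J : Ideal S) (j : R →+* S) (h : I.map j ≤ J) {m n : ℕ}
    (hmn : m ≤ n) : (Ideal.Quotient.factorPow J hmn).comp
      ((Ideal.quotientMap (J ^ n) j (pow_le_comap_pow I J j h n)).comp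
      (AdicCompletion.evalₐ I n : AdicCompletion I R →+* R ⧸ I ^ n)) =
      (Ideal.quotientMap (J ^ m) j (pow_le_comap_pow I J j h m)).comp
      (AdicCompletion.evalₐ I m : AdicCompletion I R →+* R ⧸ I ^ m) := by
  ext x
  obtain ⟨a, ha, hx⟩ := exists_seq I x
  simp only [RingHom.comp_apply, RingHom.coe_coe, hx, Ideal.quotientMap_mk]
  change Ideal.Quotient.mk (J ^ m) (j (a n)) = _
  symm
  rw [Ideal.Quotient.eq, ← map_sub]
  exact pow_le_comap_pow I J j h m (ha m n hmn)

/-- The ring map on adic completions induced by a ring map `j : R →+* S` which sends the ideal `I`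
into the ideal `J`; at the `n`-th level it is the map `R ⧸ I ^ n → S ⧸ J ^ n` induced by `j`. -/
noncomputable def complMap (I : Ideal R) (J : Ideal S) (j : R →+* S) (h : I.map j ≤ J) :
    AdicCompletion I R →+* AdicCompletion J S :=
  AdicCompletion.liftRingHom J
    (fun n => (Ideal.quotientMap (J ^ n) j (pow_le_comap_pow I J j h n)).comp
      (AdicCompletion.evalₐ I n : AdicCompletion I R →+* R ⧸ I ^ n))
    (fun hmn => complMap_compat I J j h hmn)

lemma evalₐ_complMap (I : Ideal R) (J : Ideal S) (j : R →+* S) (h : I.map j ≤ J) (n : ℕ)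
    (x : AdicCompletion I R) (r : R)
    (hr : AdicCompletion.evalₐ I n x = Ideal.Quotient.mk (I ^ n) r) :
    AdicCompletion.evalₐ J n (complMap I J j h x) = Ideal.Quotient.mk (J ^ n) (j r) := by
  rw [complMap, AdicCompletion.evalₐ_liftRingHom _ _ (fun hmn => complMap_compat I J j h hmn),
    RingHom.comp_apply, RingHom.coe_coe, hr, Ideal.quotientMap_mk]

/-- Criterion for a map on completions to be bijective. -/
theorem complMap_bijective (I : Ideal R) (J : Ideal S) (j : R →+* S) (h : I.map j ≤ J)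
    (h1 : ∀ n : ℕ, ∃ k : ℕ, J ^ k ≤ (I ^ n).map j)
    (h2 : ∀ (n : ℕ) (b : R), j b ∈ (I ^ n).map j → b ∈ I ^ n)
    (h3 : ∀ (n : ℕ) (s : S), ∃ b : R, s - j b ∈ (I ^ n).map j) :
    Function.Bijective (complMap I J j h) := by
  have h1' : ∀ n : ℕ, ∃ k : ℕ, n ≤ k ∧ J ^ k ≤ (I ^ n).map j := by
    intro n
    obtain ⟨k, hk⟩ := h1 n
    exact ⟨max n k, le_max_left _ _, (Ideal.pow_le_pow_right (le_max_right _ _)).trans hk⟩
  have hIJ : ∀ n, (I ^ n).map j ≤ J ^ n := fun n => by
    rw [Ideal.map_le_iff_le_comap]; exact pow_le_comap_pow I J j h n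
  constructor
  · rw [injective_iff_map_eq_zero]
    intro x hx
    obtain ⟨a, ha, hax⟩ := exists_seq I x
    apply AdicCompletion.ext_evalₐ
    intro n
    obtain ⟨k, hnk, hk⟩ := h1' n
    have h4 := evalₐ_complMap I J j h k x (a k) (hax k)
    rw [hx, map_zero] at h4
    have h5 : j (a k) ∈ J ^ k := Ideal.Quotient.eq_zero_iff_mem.1 h4.symm
    have h6 : a k ∈ I ^ n := h2 n _ (hk h5)
    rw [hax n, map_zero, Ideal.Quotient.eq_zero_iff_mem]
    have h7 := Ideal.add_mem _ (ha n k hnk) h6
    rwa [sub_add_cancel] at h7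
  · intro y
    obtain ⟨s, hs, hsy⟩ := exists_seq J y
    choose N hnN hN using h1'
    choose b hb using fun n => h3 n (s (N n))
    have hcomp : ∀ n, b n - b (n + 1) ∈ I ^ n := by
      intro n
      apply h2
      have h4 : s (N n) - s (N (n + 1)) ∈ (I ^ n).map j := by
        rcases le_total (N n) (N (n + 1)) with hle | hle
        · exact hN n (hs _ _ hle)
        · have h5 := hN (n + 1) (hs _ _ hle)
          have h6 := Ideal.map_mono (f := j) (Ideal.pow_le_pow_right (I := I) (Nat.le_succ n)) h5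
          rw [← neg_sub]
          exact neg_mem h6
      have h7 : s (N (n + 1)) - j (b (n + 1)) ∈ (I ^ n).map j :=
        Ideal.map_mono (f := j) (Ideal.pow_le_pow_right (I := I) (Nat.le_succ n)) (hb (n + 1))
      have h8 := Ideal.add_mem _ (Ideal.sub_mem _ h4 (hb n)) h7
      rw [map_sub]
      convert h8 using 1
      ring
    obtain ⟨x, hx⟩ := exists_of_seq I b hcomp
    refine ⟨x, ?_⟩
    apply AdicCompletion.ext_evalₐ
    intro n
    rw [evalₐ_complMap I J j h n x (b n) (hx n), hsy n]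
    symm
    rw [Ideal.Quotient.eq]
    have h4 := hs n (N n) (hnN n)
    have h5 := hIJ n (hb n)
    have h6 := Ideal.add_mem _ h4 h5
    rwa [sub_add_sub_cancel] at h6

end

end Pool.Agent.Hx18.DF
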