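import Pool.Agent.Hx18.DF.Expand

/-!
Decomposition of power series into finitely many `p`-th powers.
-/

set_option autoImplicit false
set_option maxHeartbeats 400000

namespace Pool.Agent.Hx18.DF

universe u v w

open Finset.HasAntidiagonal

/-- exponents below `p` -/
noncomputable def box (n p : ℕ) : Finset (Fin n →₀ ℕ) :=
  (Finset.univ : Finset (Fin n)).finsupp (fun _ => Finset.range p)

lemma mem_box {n p : ℕ} (γ : Fin n →₀ ℕ) : γ ∈ box n p ↔ ∀ i, γ i < p := by
  rw [box, Finset.mem_finsupp_iff]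
  simp

/-- Every power series is a finite sum of constants times monomials times `p`-th powers, as soon as
its coefficients are. -/
lemma exists_decomp {k₁ : Type u} {k : Type v} [CommRing k₁] [CommRing k] {n p : ℕ} (hp : p ≠ 0)
    (φ : k →+* k₁) (G : Finset k₁) (hG : ∀ c : k₁, ∃ h : k₁ → k, c = ∑ g ∈ G, g * φ (h g))
    (r : MvPowerSeries (Fin n) k₁) :
    ∃ R : k₁ → (Fin n →₀ ℕ) → MvPowerSeries (Fin n) k,
      r = ∑ g ∈ G, ∑ γ ∈ box n p, MvPowerSeries.C g * MvPowerSeries.monomial γ 1 *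
        MvPowerSeries.map φ (MvPowerSeries.expand p hp (R g γ)) := by
  classical
  choose h hh using fun μ : Fin n →₀ ℕ => hG (MvPowerSeries.coeff μ r)
  let R : k₁ → (Fin n →₀ ℕ) → MvPowerSeries (Fin n) k := fun g γ ν => h (p • ν + γ) g
  refine ⟨R, ?_⟩
  ext μ
  let γ₀ : Fin n →₀ ℕ := μ.mapRange (· % p) (Nat.zero_mod p)
  let ν₀ : Fin n →₀ ℕ := μ.mapRange (· / p) (Nat.zero_div p)
  have hγ₀ : ∀ i, γ₀ i = μ i % p := fun i => Finsupp.mapRange_apply ..
  have hν₀ : ∀ i, ν₀ i = μ i / p := fun i => Finsupp.mapRange_apply ..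
  have hμ : μ = γ₀ + p • ν₀ := by
    ext i
    rw [Finsupp.add_apply, Finsupp.smul_apply, hγ₀, hν₀, smul_eq_mul, Nat.mod_add_div]
  have hmem : γ₀ ∈ box n p := by
    rw [mem_box]
    intro i
    rw [hγ₀]
    exact Nat.mod_lt _ (Nat.pos_of_ne_zero hp)
  rw [hh μ, map_sum]
  refine Finset.sum_congr rfl fun g _ => ?_
  rw [map_sum, Finset.sum_eq_single_of_mem γ₀ hmem]
  · rw [mul_assoc, MvPowerSeries.coeff_C_mul]
    conv_rhs => rw [hμ, MvPowerSeries.coeff_add_monomial_mul, MvPowerSeries.coeff_map,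
      MvPowerSeries.coeff_expand_smul, one_mul]
    change _ = g * φ (h (p • ν₀ + γ₀) g)
    rw [add_comm, ← hμ]
  · intro γ hγ hne
    rw [mul_assoc, MvPowerSeries.coeff_C_mul, MvPowerSeries.coeff_monomial_mul]
    split_ifs with hle
    · rw [one_mul, MvPowerSeries.coeff_map]
      have h1 : ∃ i, ¬ p ∣ (μ - γ) i := by
        by_contra hcon
        push Not at hcon
        apply hne
        ext i
        obtain ⟨d, hd⟩ := hcon i
        rw [Finsupp.tsub_apply] at hd
        have h2 := hle i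
        have h3 := (mem_box γ).1 hγ i
        rw [hγ₀]
        have h4 : μ i = γ i + p * d := by omega
        rw [h4, Nat.add_mul_mod_self_left, Nat.mod_eq_of_lt h3]
      obtain ⟨i, hi⟩ := h1
      rw [MvPowerSeries.coeff_expand_of_not_dvd p hp _ hi, map_zero, mul_zero]
    · rw [mul_zero]

/-- In characteristic `p`, over a ring `k₁` receiving the Frobenius of `k`, the power series
`map φ (expand p r)` maps to `r ^ p`. -/
lemma map_map_expand {k₁ : Type u} {k : Type v} [CommRing k₁] [CommRing k] {n p : ℕ} (hp : p ≠ 0)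
    [ExpChar k p] (ι : k₁ →+* k) (φ : k →+* k₁) (hφ : ∀ x, ι (φ x) = x ^ p)
    (r : MvPowerSeries (Fin n) k) :
    MvPowerSeries.map ι (MvPowerSeries.map φ (MvPowerSeries.expand p hp r)) = r ^ p := by
  rw [← MvPowerSeries.map_frobenius_expand p hp, ← RingHom.comp_apply, ← MvPowerSeries.map_comp]
  congr 2
  ext x
  exact hφ x

end Pool.Agent.Hx18.DF
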