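import Pool.Agent.Hx18.DF.Lift2

/-!
Evaluation of power series in several variables, at nilpotent elements and in complete rings.
-/

set_option autoImplicit false
set_option maxHeartbeats 400000

namespace Pool.Agent.Hx18.DF

universe u v w

open MvPowerSeries

section

variable {n : ℕ} {R : Type u} [CommRing R]

/-- the ideal generated by the variables -/
noncomputable abbrev vars (n : ℕ) (R : Type u) [CommRing R] : Ideal (MvPowerSeries (Fin n) R) :=
  Ideal.span (Set.range MvPowerSeries.X)

lemma map_idealOfVars (N : ℕ) :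
    ((MvPolynomial.idealOfVars (Fin n) R) ^ N).map
      (algebraMap (MvPolynomial (Fin n) R) (MvPowerSeries (Fin n) R)) = (vars n R) ^ N := by
  rw [Ideal.map_pow]
  congr 1
  rw [Ideal.map_span, ← Set.range_comp]
  congr 2
  funext i
  exact MvPolynomial.coe_X i

lemma mem_pow_vars_of_truncTotal_eq_zero (r : MvPowerSeries (Fin n) R) (N : ℕ)
    (h : truncTotal N r = 0) : r ∈ (vars n R) ^ N := by
  let P := MvPolynomial (Fin n) R
  let I : Ideal P := MvPolynomial.idealOfVars (Fin n) R
  let e := (toAdicCompletionAlgEquiv (Fin n) R).toLinearEquiv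
  have h1 : e r ∈ (I ^ N • ⊤ : Submodule P (AdicCompletion I P)) := by
    rw [AdicCompletion.pow_smul_top_eq_ker_eval (MvPolynomial.idealOfVars_fg (Fin n) R)]
    rw [LinearMap.mem_ker]
    change Ideal.Quotient.mk _ (truncTotal N r) = _
    rw [h, map_zero]
  have h2 : r ∈ (I ^ N • ⊤ : Submodule P (MvPowerSeries (Fin n) R)) := by
    have h3 : e.symm (e r) ∈ (I ^ N • ⊤ : Submodule P (AdicCompletion I P)).map
        (e.symm : _ →ₗ[P] MvPowerSeries (Fin n) R) := ⟨_, h1, rfl⟩
    rw [Submodule.map_smul'', e.symm_apply_apply] at h3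
    exact Submodule.smul_mono le_rfl le_top h3
  rw [Ideal.smul_top_eq_map] at h2
  rw [← map_idealOfVars]
  exact h2

lemma sub_truncTotal_mem (r : MvPowerSeries (Fin n) R) (N : ℕ) :
    r - (truncTotal N r : MvPolynomial (Fin n) R) ∈ (vars n R) ^ N := by
  apply mem_pow_vars_of_truncTotal_eq_zero
  ext x
  by_cases hx : x.degree < N
  · rw [coeff_truncTotal _ hx, map_sub, MvPolynomial.coeff_coe, coeff_truncTotal _ hx, sub_self,
      MvPolynomial.coeff_zero]
  · rw [coeff_truncTotal_eq_zero _ (not_lt.1 hx), MvPolynomial.coeff_zero]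

/-- Two ring maps out of a power series ring which agree on constants and variables and send a
power of the ideal of the variables to zero are equal. -/
lemma ringHom_ext_of_pow {T : Type v} [CommRing T] (F G : MvPowerSeries (Fin n) R →+* T) (N : ℕ)
    (hC : ∀ c : R, F (C c) = G (C c)) (hX : ∀ i, F (X i) = G (X i))
    (hF : ∀ r ∈ (vars n R) ^ N, F r = 0) (hG : ∀ r ∈ (vars n R) ^ N, G r = 0) : F = G := by
  have h1 : F.comp (MvPolynomial.coeToMvPowerSeries.ringHom) =
      G.comp (MvPolynomial.coeToMvPowerSeries.ringHom) := by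
    apply MvPolynomial.ringHom_ext
    · intro r
      simpa using hC r
    · intro i
      simpa using hX i
  ext r
  have h2 := sub_truncTotal_mem r N
  have h3 := hF _ h2
  have h4 := hG _ h2
  rw [map_sub, sub_eq_zero] at h3 h4
  rw [h3, h4]
  exact congrArg (fun g => g (truncTotal N r)) h1

/-- evaluation at nilpotent elements -/
noncomputable def evalNil {T : Type v} [CommRing T] (N : ℕ) (s : R →+* T) (a : Fin n → T)
    (ha : (Ideal.span (Set.range a)) ^ N = ⊥) : MvPowerSeries (Fin n) R →+* T :=
  (Ideal.Quotient.lift ((MvPolynomial.idealOfVars (Fin n) R) ^ N) (MvPolynomial.eval₂Hom s a)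
    (by
      intro x hx
      have h1 : MvPolynomial.eval₂Hom s a x ∈
        ((MvPolynomial.idealOfVars (Fin n) R) ^ N).map (MvPolynomial.eval₂Hom s a) :=
        Ideal.mem_map_of_mem _ hx
      rw [Ideal.map_pow, Ideal.map_span, ← Set.range_comp] at h1
      have h2 : (MvPolynomial.eval₂Hom s a ∘ MvPolynomial.X) = a := by
        funext i
        simp
      rw [h2, ha] at h1
      exact Ideal.mem_bot.1 h1)).comp (truncTotalAlgHom (Fin n) R N).toRingHom

lemma evalNil_coe {T : Type v} [CommRing T] (N : ℕ) (s : R →+* T) (a : Fin n → T)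
    (ha : (Ideal.span (Set.range a)) ^ N = ⊥) (q : MvPolynomial (Fin n) R) :
    evalNil N s a ha (q : MvPowerSeries (Fin n) R) = MvPolynomial.eval₂Hom s a q := by
  have h := (truncTotalAlgHom (Fin n) R N).commutes q
  have h' : truncTotalAlgHom (Fin n) R N (q : MvPowerSeries (Fin n) R) =
      Ideal.Quotient.mk _ q := h
  rw [evalNil, RingHom.comp_apply]
  change Ideal.Quotient.lift _ _ _ (truncTotalAlgHom (Fin n) R N (q : MvPowerSeries (Fin n) R)) = _
  rw [h', Ideal.Quotient.lift_mk]

lemma evalNil_C {T : Type v} [CommRing T] (N : ℕ) (s : R →+* T) (a : Fin n → T)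
    (ha : (Ideal.span (Set.range a)) ^ N = ⊥) (c : R) :
    evalNil N s a ha (C c) = s c := by
  have h := evalNil_coe N s a ha (MvPolynomial.C c)
  rw [MvPolynomial.coe_C] at h
  rw [h]
  simp

lemma evalNil_X {T : Type v} [CommRing T] (N : ℕ) (s : R →+* T) (a : Fin n → T)
    (ha : (Ideal.span (Set.range a)) ^ N = ⊥) (i : Fin n) :
    evalNil N s a ha (X i) = a i := by
  have h := evalNil_coe N s a ha (MvPolynomial.X i)
  rw [MvPolynomial.coe_X] at h
  rw [h]
  simp

/-- a ring map sending the variables into an ideal sends powers to powers -/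
lemma map_pow_vars_le {T : Type v} [CommRing T] (F : MvPowerSeries (Fin n) R →+* T)
    (a : Fin n → T) (hX : ∀ i, F (X i) = a i) (N : ℕ) (r : MvPowerSeries (Fin n) R)
    (hr : r ∈ (vars n R) ^ N) : F r ∈ (Ideal.span (Set.range a)) ^ N := by
  have h1 := Ideal.mem_map_of_mem F hr
  rw [Ideal.map_pow, Ideal.map_span, ← Set.range_comp] at h1
  have h2 : (F ∘ X) = a := by
    funext i
    exact hX i
  rwa [h2] at h1

/-- Evaluation in complete rings. -/
theorem exists_eval {S : Type v} [CommRing S] (J : Ideal S) [IsAdicComplete J S]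
    (s : R →+* S) (a : Fin n → S) (ha : ∀ i, a i ∈ J) :
    ∃ θ : MvPowerSeries (Fin n) R →+* S, (∀ c, θ (C c) = s c) ∧ (∀ i, θ (X i) = a i) := by
  have hspan : Ideal.span (Set.range a) ≤ J := by
    rw [Ideal.span_le]
    rintro _ ⟨i, rfl⟩
    exact ha i
  have hN : ∀ N : ℕ, (Ideal.span (Set.range fun i => Ideal.Quotient.mk (J ^ N) (a i))) ^ N = ⊥ := by
    intro N
    have h1 : (Set.range fun i => Ideal.Quotient.mk (J ^ N) (a i)) =
        (Ideal.Quotient.mk (J ^ N)) '' (Set.range a) := by
      rw [← Set.range_comp]; rfl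
    rw [h1, ← Ideal.map_span, ← Ideal.map_pow, eq_bot_iff]
    refine (Ideal.map_mono (Ideal.pow_right_mono hspan N)).trans ?_
    rw [Ideal.map_quotient_self]
  let f : (N : ℕ) → MvPowerSeries (Fin n) R →+* S ⧸ J ^ N := fun N =>
    evalNil N ((Ideal.Quotient.mk (J ^ N)).comp s) (fun i => Ideal.Quotient.mk (J ^ N) (a i)) (hN N)
  have hf : ∀ {m l : ℕ} (hle : m ≤ l), (Ideal.Quotient.factorPow J hle).comp (f l) = f m := by
    intro m l hle
    apply ringHom_ext_of_pow _ _ l
    · intro c
      rw [RingHom.comp_apply, evalNil_C, evalNil_C]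
      rfl
    · intro i
      rw [RingHom.comp_apply, evalNil_X, evalNil_X]
      rfl
    · intro r hr
      have := map_pow_vars_le (f l) _ (fun i => evalNil_X l _ _ (hN l) i) l r hr
      rw [hN l] at this
      rw [RingHom.comp_apply, (Ideal.mem_bot).1 this, map_zero]
    · intro r hr
      have := map_pow_vars_le (f m) _ (fun i => evalNil_X m _ _ (hN m) i) l r hr
      have h2 := Ideal.pow_le_pow_right hle this
      rw [hN m] at h2
      exact (Ideal.mem_bot).1 h2
  refine ⟨IsAdicComplete.liftRingHom J f hf, ?_, ?_⟩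
  · intro c
    rw [← sub_eq_zero]
    refine (inferInstance : IsHausdorff J S).haus _ (fun N => ?_)
    rw [SModEq.zero, smul_eq_mul, Ideal.mul_top, ← Ideal.Quotient.eq_zero_iff_mem, map_sub,
      IsAdicComplete.mk_liftRingHom, sub_eq_zero]
    exact evalNil_C N _ _ (hN N) c
  · intro i
    rw [← sub_eq_zero]
    refine (inferInstance : IsHausdorff J S).haus _ (fun N => ?_)
    rw [SModEq.zero, smul_eq_mul, Ideal.mul_top, ← Ideal.Quotient.eq_zero_iff_mem, map_sub,
      IsAdicComplete.mk_liftRingHom, sub_eq_zero]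
    exact evalNil_X N _ _ (hN N) i

/-- Surjectivity of evaluation in complete rings. -/
theorem eval_surjective {S : Type v} [CommRing S] (J : Ideal S) [IsAdicComplete J S]
    (θ : MvPowerSeries (Fin n) R →+* S) (a : Fin n → S) (hX : ∀ i, θ (X i) = a i)
    (haJ : Ideal.span (Set.range a) = J)
    (hs : ∀ x : S, ∃ c : R, x - θ (C c) ∈ J) : Function.Surjective θ := by
  have hmap : (vars n R).map θ = J := by
    rw [Ideal.map_span, ← Set.range_comp, ← haJ]
    congr 2
    funext i
    exact hX i
  have : IsHausdorff ((vars n R).map θ) S := by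
    rw [hmap]; infer_instance
  apply surjective_of_mk_map_comp_surjective (I := vars n R) θ
  intro y
  obtain ⟨y, rfl⟩ := Ideal.Quotient.mk_surjective y
  obtain ⟨c, hc⟩ := hs y
  refine ⟨C c, ?_⟩
  rw [RingHom.comp_apply]
  symm
  rw [Ideal.Quotient.eq, hmap]
  exact hc

end

/-- A surjective endomorphism of a Noetherian ring is injective. -/
theorem injective_of_surjective_ringHom {S : Type v} [CommRing S] [IsNoetherianRing S]
    (θ : S →+* S) (hθ : Function.Surjective θ) : Function.Injective θ := by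
  have hsurj : ∀ k : ℕ, Function.Surjective (θ ^ k : S →+* S) := by
    intro k
    induction k with
    | zero => exact fun x => ⟨x, rfl⟩
    | succ k ih =>
      intro x
      obtain ⟨y, hy⟩ := hθ x
      obtain ⟨z, hz⟩ := ih y
      refine ⟨z, ?_⟩
      rw [pow_succ', RingHom.mul_def, RingHom.comp_apply, hz, hy]
  let K : ℕ →o Ideal S :=
    { toFun := fun k => RingHom.ker (θ ^ k : S →+* S)
      monotone' := by
        apply monotone_nat_of_le_succ
        intro k x hx
        rw [RingHom.mem_ker] at hx ⊢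
        rw [pow_succ', RingHom.mul_def, RingHom.comp_apply, hx, map_zero] }
  obtain ⟨k, hk⟩ := monotone_stabilizes_iff_noetherian.2 (inferInstanceAs (IsNoetherian S S)) K
  rw [injective_iff_map_eq_zero]
  intro x hx
  obtain ⟨y, rfl⟩ := hsurj k x
  have h1 : y ∈ K (k + 1) := by
    change y ∈ RingHom.ker (θ ^ (k + 1) : S →+* S)
    rw [RingHom.mem_ker, pow_succ', RingHom.mul_def, RingHom.comp_apply, hx]
  rw [← hk (k + 1) (Nat.le_succ k)] at h1
  exact h1

end Pool.Agent.Hx18.DF
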