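import Pool.Agent.Hx18.DF.Rec

/-!
The expansion theorem: finitely many power series over a field `κ` are polynomials in finitely
many power series with sequentially independent constant coefficients, with coefficients power
series over a given subfield containing the `p`-th powers.
-/

set_option autoImplicit false
set_option maxHeartbeats 400000

namespace Pool.Agent.Hx18.DF

universe u v w

open Finset.HasAntidiagonal

variable {m n : ℕ} {ord : MonomialOrder (Fin n)} {κ : Type u} [Field κ] {F : Subfield κ}

section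

variable (p : ℕ) (f : Fin m → MvPowerSeries (Fin n) κ)

lemma own_unique (s t : Pos m n) (K L : Fin n →₀ ℕ) (h1 : s.1 = t.1) (h2 : s.2 + K = t.2 + L)
    (hs : isOwn ord (dat ord F p f) s K) (ht : isOwn ord (dat ord F p f) t L) : s = t := by
  obtain ⟨i, M⟩ := s
  obtain ⟨j, M'⟩ := t
  simp only at h1 h2
  subst h1
  have h3 : ord.toSyn M ≤ ord.toSyn M' := by
    apply hs.2 M' _ ht.1
    change M' ≤ M + K
    rw [h2]; exact le_self_add
  have h4 : ord.toSyn M' ≤ ord.toSyn M := by
    apply ht.2 M _ hs.1
    change M ≤ M' + L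
    rw [← h2]; exact le_self_add
  have h5 : M = M' := ord.toSyn.injective (le_antisymm h3 h4)
  rw [h5]

lemma exists_own (t : Pos m n) (ht : ¬ unowned (dat ord F p f) t) :
    ∃ M K : Fin n →₀ ℕ, M + K = t.2 ∧ isOwn ord (dat ord F p f) (t.1, M) K := by
  classical
  rw [unowned] at ht
  push Not at ht
  obtain ⟨M₀, hM₀, hb₀⟩ := ht
  let S : Set (Fin n →₀ ℕ) := {M | M ≤ t.2 ∧ (dat ord F p f (t.1, M)).blk}
  have hfin : S.Finite := (Set.finite_Iic t.2).subset fun M hM => hM.1
  obtain ⟨M, hM, hmin⟩ := Set.exists_min_image S ord.toSyn hfin ⟨M₀, hM₀, hb₀⟩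
  obtain ⟨K, hK⟩ := exists_add_of_le hM.1
  refine ⟨M, K, hK.symm, hM.2, fun M' hM' hb => hmin M' ⟨?_, hb⟩⟩
  rw [hK]; exact hM'

open Classical in
lemma sum_owned (S : Finset (Pos m n)) (hS : ∀ t, t ∈ S ↔ (dat ord F p f t).blk)
    (t : Pos m n) : MvPowerSeries.coeff t.2 (∑ s ∈ S with s.1 = t.1,
      MvPowerSeries.monomial s.2 (1 : κ) * bet ord (dat ord F p f) s) =
      if unowned (dat ord F p f) t then 0 else (dat ord F p f t).c := by
  rw [map_sum]
  split_ifs with h
  · refine Finset.sum_eq_zero fun s hs => ?_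
    obtain ⟨hs1, hs2⟩ := Finset.mem_filter.1 hs
    rw [MvPowerSeries.coeff_monomial_mul, if_neg]
    intro hle
    apply h s.2 hle
    rw [← hs2]
    exact (hS s).1 hs1
  · obtain ⟨M, K, hMK, hown⟩ := exists_own p f t h
    have hmem : ((t.1, M) : Pos m n) ∈ S.filter (fun s => s.1 = t.1) :=
      Finset.mem_filter.2 ⟨(hS _).2 hown.1, rfl⟩
    rw [Finset.sum_eq_single_of_mem _ hmem]
    · rw [← hMK, MvPowerSeries.coeff_add_monomial_mul, one_mul]
      change (if _ then _ else _) = _
      rw [if_pos hown]
      change (dat ord F p f (t.1, M + K)).c = _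
      rw [hMK]
    · intro s hs hne
      obtain ⟨hs1, hs2⟩ := Finset.mem_filter.1 hs
      rw [MvPowerSeries.coeff_monomial_mul]
      split_ifs with hle
      · rw [one_mul]
        change (if _ then _ else _) = _
        rw [if_neg]
        intro hown'
        apply hne
        apply own_unique p f s (t.1, M) _ K hs2 _ hown' hown
        change s.2 + (t.2 - s.2) = M + K
        rw [hMK, add_tsub_cancel_of_le hle]
      · rfl

open Classical in
/-- the coefficient power series -/
noncomputable def gcoef (ord : MonomialOrder (Fin n)) (F : Subfield κ) (j : Fin m)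
    (α : Pos m n →₀ ℕ) : MvPowerSeries (Fin n) κ :=
  fun I => if unowned (dat ord F p f) (j, I) then
    (((dat ord F p f (j, I)).P.coeff α : F) : κ) else 0

lemma gcoef_mem (j : Fin m) (α : Pos m n →₀ ℕ) (μ : Fin n →₀ ℕ) :
    MvPowerSeries.coeff μ (gcoef p f ord F j α) ∈ F := by
  classical
  change (if _ then _ else _) ∈ F
  split_ifs
  · exact SetLike.coe_mem _
  · exact F.zero_mem

open Classical in
lemma expansion (hp : 0 < p) (hF : ∀ x : κ, x ^ p ∈ F) (S : Finset (Pos m n))
    (hS : ∀ t, t ∈ S ↔ (dat ord F p f t).blk) (j : Fin m) :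
    f j = (∑ α ∈ S.finsupp (fun _ => Finset.range p),
        gcoef p f ord F j α * α.prod fun t k => bet ord (dat ord F p f) t ^ k) +
      ∑ s ∈ S with s.1 = j, MvPowerSeries.monomial s.2 (1 : κ) * bet ord (dat ord F p f) s := by
  ext μ
  rw [map_add]
  have h1 : MvPowerSeries.coeff μ (∑ s ∈ S with s.1 = j,
      MvPowerSeries.monomial s.2 (1 : κ) * bet ord (dat ord F p f) s) =
      if unowned (dat ord F p f) (j, μ) then 0 else (dat ord F p f (j, μ)).c :=
    sum_owned p f S hS (j, μ)
  have h2 : MvPowerSeries.coeff μ (∑ α ∈ S.finsupp (fun _ => Finset.range p),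
        gcoef p f ord F j α * α.prod fun t k => bet ord (dat ord F p f) t ^ k) =
      ∑ x ∈ antidiagonal μ, if unowned (dat ord F p f) (j, x.1) then
      MvPowerSeries.coeff x.2 (evs F n (bet ord (dat ord F p f)) (dat ord F p f (j, x.1)).P)
      else 0 := by
    simp only [map_sum, MvPowerSeries.coeff_mul]
    rw [Finset.sum_comm]
    refine Finset.sum_congr rfl fun x _ => ?_
    split_ifs with hx
    · rw [coeff_evs F _ _ (S.finsupp fun _ => Finset.range p)]
      · refine Finset.sum_congr rfl fun α _ => ?_
        congr 1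
        change (if _ then _ else _) = _
        rw [if_pos hx]
      · intro α hα
        have hsup := P_support p f _ α hα
        rw [Finset.mem_finsupp_iff]
        refine ⟨fun t ht => (hS t).2 (hsup t (Finsupp.mem_support_iff.1 ht)).2.2, fun t _ => ?_⟩
        rw [Finset.mem_range]
        by_cases h0 : α t = 0
        · rw [h0]; exact hp
        · exact (hsup t h0).1
    · refine Finset.sum_eq_zero fun α _ => ?_
      have : MvPowerSeries.coeff x.1 (gcoef p f ord F j α) = 0 := by
        change (if _ then _ else _) = _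
        rw [if_neg hx]
      rw [this, zero_mul]
  rw [h1, h2]
  by_cases h : unowned (dat ord F p f) (j, μ)
  · rw [if_pos h, add_zero]
    exact coeff_of_unowned p f hp hF (j, μ) h
  · rw [if_neg h]
    exact coeff_of_owned p f (j, μ) h

end

/-- power series with coefficients in a subfield -/
noncomputable def coefIn (n : ℕ) (F : Subfield κ) : Subring (MvPowerSeries (Fin n) κ) :=
  (MvPowerSeries.map (σ := Fin n) F.subtype).range

lemma mem_coefIn (r : MvPowerSeries (Fin n) κ) :
    r ∈ coefIn n F ↔ ∀ μ, MvPowerSeries.coeff μ r ∈ F := by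
  constructor
  · rintro ⟨s, rfl⟩ μ
    rw [MvPowerSeries.coeff_map]
    exact SetLike.coe_mem _
  · intro h
    let s : MvPowerSeries (Fin n) F := fun μ => ⟨MvPowerSeries.coeff μ r, h μ⟩
    refine ⟨s, ?_⟩
    ext μ
    rw [MvPowerSeries.coeff_map]
    rfl

/-- The expansion theorem. -/
theorem exists_expansion (F : Subfield κ) (p : ℕ) (hp : 0 < p) (hF : ∀ x : κ, x ^ p ∈ F)
    (f : Fin m → MvPowerSeries (Fin n) κ) :
    ∃ l : List (MvPowerSeries (Fin n) κ), Indep F (l.map MvPowerSeries.constantCoeff) ∧
      ∀ j, f j ∈ Subring.closure ((coefIn n F : Set (MvPowerSeries (Fin n) κ)) ∪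
        {β | β ∈ l}) := by
  classical
  let ord : MonomialOrder (Fin n) := MonomialOrder.degLex
  let S : Finset (Pos m n) := (blk_finite (ord := ord) (F := F) p f).toFinset
  have hS : ∀ t, t ∈ S ↔ (dat ord F p f t).blk := fun t => Set.Finite.mem_toFinset _
  obtain ⟨l, hl, hind⟩ := exists_list (ord := ord) (F := F) p f S (fun t ht => (hS t).1 ht) F
    (fun t _ x hx => Subfield.subset_closure (Or.inl hx))
  refine ⟨l.map (bet ord (dat ord F p f)), ?_, ?_⟩
  · have : (l.map (bet ord (dat ord F p f))).map MvPowerSeries.constantCoeff =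
        l.map fun t => (dat ord F p f t).c := by
      rw [List.map_map]
      apply List.map_congr_left
      intro t ht
      exact constantCoeff_bet p f t ((hS t).1 ((hl t).1 ht))
    rw [this]
    exact hind
  · intro j
    have hb : ∀ t ∈ S, bet ord (dat ord F p f) t ∈
        Subring.closure ((coefIn n F : Set (MvPowerSeries (Fin n) κ)) ∪
        {β | β ∈ l.map (bet ord (dat ord F p f))}) := by
      intro t ht
      exact Subring.subset_closure (Or.inr (List.mem_map.2 ⟨t, (hl t).2 ht, rfl⟩))
    rw [expansion (ord := ord) (F := F) p f hp hF S hS j]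
    refine Subring.add_mem _ (Subring.sum_mem _ fun α hα => ?_) (Subring.sum_mem _ fun s hs => ?_)
    · refine Subring.mul_mem _ (Subring.subset_closure (Or.inl ?_)) ?_
      · exact (mem_coefIn _).2 (gcoef_mem p f j α)
      · refine Subring.prod_mem _ fun t ht => Subring.pow_mem _ (hb t ?_) _
        exact (Finset.mem_finsupp_iff.1 hα).1 ht
    · refine Subring.mul_mem _ (Subring.subset_closure (Or.inl ?_)) (hb s (Finset.mem_filter.1 hs).1)
      refine (mem_coefIn _).2 fun μ => ?_
      rw [MvPowerSeries.coeff_monomial]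
      split_ifs
      · exact F.one_mem
      · exact F.zero_mem

end Pool.Agent.Hx18.DF
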