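import Mathlib

/-!
Lifting of fields along square-zero extensions with prescribed lifts of a finite `p`-independent
sequence, and formal smoothness over a polynomial ring.
-/

set_option autoImplicit false
set_option maxHeartbeats 400000
set_option synthInstance.maxHeartbeats 400000

open Polynomial

namespace Pool.Agent.Hx18.DF

universe u v

/-- The list `l` is independent over the subfield `F`: each entry lies outside the field generated
over `F` by the preceding entries. -/
def Indep {κ : Type u} [Field κ] : Subfield κ → List κ → Prop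
  | _, [] => True
  | F, b :: l => b ∉ F ∧ Indep (Subfield.closure (F ∪ {b})) l

/-- the field generated over `F` by the entries of `l` -/
def adj {κ : Type u} [Field κ] : Subfield κ → List κ → Subfield κ
  | F, [] => F
  | F, b :: l => adj (Subfield.closure (F ∪ {b})) l

lemma le_adj {κ : Type u} [Field κ] (F : Subfield κ) (l : List κ) : F ≤ adj F l := by
  induction l generalizing F with
  | nil => exact le_rfl
  | cons b l ih =>
    exact le_trans (fun x hx => Subfield.subset_closure (Or.inl hx)) (ih _)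

lemma adj_cons {κ : Type u} [Field κ] (F : Subfield κ) (b : κ) (l : List κ) :
    adj F (b :: l) = adj (Subfield.closure (F ∪ {b})) l := rfl

lemma mem_adj {κ : Type u} [Field κ] (F : Subfield κ) (l : List κ) (b : κ) (hb : b ∈ l) :
    b ∈ adj F l := by
  induction l generalizing F with
  | nil => simp at hb
  | cons a l ih =>
    rw [adj_cons]
    rcases List.mem_cons.1 hb with h | h
    · have h1 : b ∈ Subfield.closure ((F : Set κ) ∪ {a}) :=
        Subfield.subset_closure (Set.mem_union_right _ (by simp [h]))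
      exact le_adj _ l h1
    · exact ih _ h

lemma adj_append {κ : Type u} [Field κ] (F : Subfield κ) (l l' : List κ) :
    adj F (l ++ l') = adj (adj F l) l' := by
  induction l generalizing F with
  | nil => rfl
  | cons b l ih => exact ih _

lemma indep_append {κ : Type u} [Field κ] (F : Subfield κ) (l l' : List κ) :
    Indep F (l ++ l') ↔ Indep F l ∧ Indep (adj F l) l' := by
  induction l generalizing F with
  | nil => simp [Indep, adj]
  | cons b l ih =>
    simp only [List.cons_append, Indep, adj, ih, and_assoc]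

section Graph

variable {κ : Type u} [Field κ] {S : Type v} [CommRing S] (p : ℕ) [hp : Fact p.Prime]
  (J : Ideal S) (g : κ →+* S ⧸ J)

/-- pairs `(x, c)` such that `c` lifts `g x` -/
def pairs : Subring (κ × S) :=
  RingHom.eqLocus (g.comp (RingHom.fst κ S)) ((Ideal.Quotient.mk J).comp (RingHom.snd κ S))

lemma mem_pairs (x : κ × S) : x ∈ pairs J g ↔ g x.1 = Ideal.Quotient.mk J x.2 := Iff.rfl

/-- graphs of partial lifts which are defined at the `p`-th powers -/
structure Good (G : Subring (κ × S)) : Prop where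
  le : G ≤ pairs J g
  pow : ∀ x ∈ pairs J g, x ^ p ∈ G
  graph : ∀ c : S, ((0, c) : κ × S) ∈ G → c = 0

variable {p J g}

lemma good_of_bot [CharP κ p] [CharP S p] (hJ : J ^ 2 = ⊥) :
    Good p J g ((pairs J g).map (frobenius (κ × S) p)) := by
  refine ⟨?_, ?_, ?_⟩
  · rintro _ ⟨x, hx, rfl⟩
    have : frobenius (κ × S) p x = x ^ p := rfl
    rw [this]
    exact (pairs J g).pow_mem hx p
  · intro x hx
    exact ⟨x, hx, rfl⟩
  · rintro c ⟨x, hx, hxc⟩
    have h0 : frobenius (κ × S) p x = x ^ p := rfl
    rw [h0] at hxc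
    have h1 : x.1 ^ p = 0 := congrArg Prod.fst hxc
    have h2 : x.2 ^ p = c := congrArg Prod.snd hxc
    have h3 : x.1 = 0 := pow_eq_zero_iff hp.out.ne_zero |>.1 h1
    have h4 : x.2 ∈ J := by
      have := (mem_pairs J g x).1 hx
      rw [h3, map_zero] at this
      exact Ideal.Quotient.eq_zero_iff_mem.1 this.symm
    have h5 : x.2 ^ 2 ∈ J ^ 2 := Ideal.pow_mem_pow h4 2
    rw [hJ] at h5
    have h6 : x.2 ^ 2 = 0 := h5
    rw [← h2]
    obtain ⟨k, hk⟩ := Nat.exists_eq_add_of_le hp.out.two_le
    rw [hk, pow_add, h6, zero_mul]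

/-- the domain of definition of a partial lift -/
def dom (G : Subring (κ × S)) : Subring κ := G.map (RingHom.fst κ S)

lemma mem_dom (G : Subring (κ × S)) (x : κ) : x ∈ dom G ↔ ∃ c : S, ((x, c) : κ × S) ∈ G := by
  constructor
  · rintro ⟨y, hy, rfl⟩
    exact ⟨y.2, hy⟩
  · rintro ⟨c, hc⟩
    exact ⟨_, hc, rfl⟩

omit hp in
lemma Good.pow_mem_dom {G : Subring (κ × S)} (hG : Good p J g G) (x : κ) : x ^ p ∈ dom G := by
  obtain ⟨c, hc⟩ := Ideal.Quotient.mk_surjective (g x)
  have : ((x, c) : κ × S) ∈ pairs J g := by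
    rw [mem_pairs]; exact hc.symm
  exact (mem_dom _ _).2 ⟨c ^ p, hG.pow _ this⟩

/-- the domain of a good graph as a subfield -/
def domField {G : Subring (κ × S)} (hG : Good p J g G) : Subfield κ where
  toSubring := dom G
  inv_mem' x hx := by
    by_cases h : x = 0
    · subst h; rw [inv_zero]; exact (dom G).zero_mem
    · have h1 : x⁻¹ = (x⁻¹) ^ p * x ^ (p - 1) := by
        obtain ⟨k, hk⟩ := Nat.exists_eq_add_of_le' hp.out.one_le
        rw [hk, Nat.add_sub_cancel, pow_succ, mul_right_comm, ← mul_pow, inv_mul_cancel₀ h,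
          one_pow, one_mul]
      rw [h1]
      exact (dom G).mul_mem (hG.pow_mem_dom _) ((dom G).pow_mem hx _)

lemma mem_domField {G : Subring (κ × S)} (hG : Good p J g G) (x : κ) :
    x ∈ domField hG ↔ ∃ c : S, ((x, c) : κ × S) ∈ G := mem_dom G x

/-- A good graph extends to one more element. -/
lemma Good.extend [CharP κ p] {G : Subring (κ × S)} (hG : Good p J g G) (t : κ × S)
    (ht : t ∈ pairs J g) (htG : t.1 ∉ domField hG) :
    ∃ G', G ≤ G' ∧ t ∈ G' ∧ Good p J g G' ∧
      ∀ x : κ, x ∈ dom G' → x ∈ Subfield.closure ((domField hG : Set κ) ∪ {t.1}) := by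
  classical
  have hpp := hp.out
  set E := domField hG with hE
  -- the monic polynomial `X ^ p - t ^ p` over `G`
  have htp : t ^ p ∈ G := hG.pow t ht
  let q : G[X] := X ^ p - C (⟨t ^ p, htp⟩ : G)
  have hq : q.Monic := monic_X_pow_sub_C _ hpp.ne_zero
  have hqt : aeval t q = 0 := by
    simp [q, Algebra.algebraMap_eq_smul_one, Subring.smul_def]
  let G' : Subring (κ × S) := (aeval (R := G) t : G[X] →ₐ[G] (κ × S)).toRingHom.range
  -- the first components
  let f1 : G →+* E :=
    { toFun := fun x => ⟨x.1.1, (mem_domField hG _).2 ⟨x.1.2, x.2⟩⟩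
      map_one' := rfl
      map_mul' := fun _ _ => rfl
      map_zero' := rfl
      map_add' := fun _ _ => rfl }
  have hf1 : ∀ F : G[X], (aeval t F).1 = aeval t.1 (F.map f1) := by
    intro F
    induction F using Polynomial.induction_on' with
    | add F H hF hH => simp only [map_add, Prod.fst_add, hF, hH, Polynomial.map_add]
    | monomial n a =>
      simp [aeval_monomial, Algebra.algebraMap_eq_smul_one, Subring.smul_def, Subfield.smul_def,
        f1]
  -- minimal polynomial
  have hirr : Irreducible (X ^ p - C (⟨t.1 ^ p, hG.pow_mem_dom t.1⟩ : E) : E[X]) := by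
    refine X_pow_sub_C_irreducible_of_prime hpp ?_
    intro b hb
    have h1 : (b : κ) ^ p = t.1 ^ p := congrArg Subtype.val hb
    have h2 : ((b : κ) - t.1) ^ p = 0 := by
      rw [sub_pow_char, h1, sub_self]
    have h3 : (b : κ) = t.1 := sub_eq_zero.1 (pow_eq_zero_iff hpp.ne_zero |>.1 h2)
    exact htG (h3 ▸ b.2)
  have hmin : minpoly E t.1 = X ^ p - C (⟨t.1 ^ p, hG.pow_mem_dom t.1⟩ : E) := by
    symm
    apply minpoly.eq_of_irreducible_of_monic hirr
    · simp [Algebra.algebraMap_eq_smul_one, Subfield.smul_def]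
    · exact monic_X_pow_sub_C _ hpp.ne_zero
  have hlow : ∀ F : E[X], F.natDegree < p → aeval t.1 F = 0 → F = 0 := by
    intro F hF h0
    by_contra hne
    have h1 := natDegree_le_of_dvd (minpoly.dvd E t.1 h0) hne
    rw [hmin, natDegree_X_pow_sub_C] at h1
    omega
  refine ⟨G', ?_, ?_, ⟨?_, ?_, ?_⟩, ?_⟩
  · intro x hx
    exact ⟨C ⟨x, hx⟩, by simp [Algebra.algebraMap_eq_smul_one, Subring.smul_def]⟩
  · exact ⟨X, by simp⟩
  · rintro _ ⟨F, rfl⟩
    have : ∀ F : G[X], aeval t F ∈ pairs J g := by
      intro F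
      induction F using Polynomial.induction_on' with
      | add F H hF hH => rw [map_add]; exact (pairs J g).add_mem hF hH
      | monomial n a =>
        rw [aeval_monomial]
        refine (pairs J g).mul_mem ?_ ((pairs J g).pow_mem ht _)
        exact hG.le a.2
    exact this F
  · intro x hx
    exact ⟨C ⟨x ^ p, hG.pow x hx⟩, by simp [Algebra.algebraMap_eq_smul_one, Subring.smul_def]⟩
  · rintro c ⟨F, hF⟩
    have hF' : aeval t F = ((0, c) : κ × S) := hF
    have hmod : aeval t (F %ₘ q) = ((0, c) : κ × S) := by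
      rw [← hF', ← modByMonic_add_div F q, map_add, map_mul, hqt, zero_mul, add_zero,
        modByMonic_add_div F q]
    have hdeg : (F %ₘ q).natDegree < p := by
      have := natDegree_modByMonic_lt F hq (by
        intro h
        have h1 : q.natDegree = 0 := by rw [h]; simp
        rw [natDegree_X_pow_sub_C] at h1
        exact hpp.ne_zero h1)
      rwa [natDegree_X_pow_sub_C] at this
    have h1 : (F %ₘ q).map f1 = 0 := by
      apply hlow
      · exact lt_of_le_of_lt (natDegree_map_le) hdeg
      · rw [← hf1, hmod]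
    have h2 : F %ₘ q = 0 := by
      ext n : 1
      have h3 : f1 ((F %ₘ q).coeff n) = 0 := by
        rw [← coeff_map, h1, coeff_zero]
      have h4 : ((F %ₘ q).coeff n : κ × S).1 = 0 := congrArg Subtype.val h3
      have h5 : ((0, ((F %ₘ q).coeff n : κ × S).2) : κ × S) ∈ G := by
        rw [← h4]; exact ((F %ₘ q).coeff n).2
      have h6 := hG.graph _ h5
      rw [coeff_zero]
      apply Subtype.ext
      exact Prod.ext h4 h6
    rw [h2, map_zero] at hmod
    exact (congrArg Prod.snd hmod).symm
  · intro x hx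
    obtain ⟨c, F, hF⟩ := (mem_dom _ _).1 hx
    have hF' : aeval t F = ((x, c) : κ × S) := hF
    have h1 : x = aeval t.1 (F.map f1) := by rw [← hf1, hF']
    rw [h1, aeval_eq_sum_range]
    refine Subfield.sum_mem _ fun i _ => ?_
    rw [Subfield.smul_def]
    refine Subfield.mul_mem _ (Subfield.subset_closure (Or.inl (SetLike.coe_mem _))) ?_
    exact Subfield.pow_mem _ (Subfield.subset_closure
      (Set.mem_union_right _ (Set.mem_singleton t.1))) _

lemma Good.extend_list [CharP κ p] {G : Subring (κ × S)} (hG : Good p J g G) (l : List (κ × S))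
    (hl : ∀ x ∈ l, x ∈ pairs J g) (F : Subfield κ) (hF : ∀ x, x ∈ dom G → x ∈ F)
    (hind : Indep F (l.map Prod.fst)) :
    ∃ G', G ≤ G' ∧ (∀ x ∈ l, x ∈ G') ∧ Good p J g G' := by
  induction l generalizing G F with
  | nil => exact ⟨G, le_rfl, by simp, hG⟩
  | cons t l ih =>
    obtain ⟨h1, h2⟩ := hind
    have ht : t.1 ∉ domField hG := fun h => h1 (hF _ h)
    obtain ⟨G1, hle, htG, hG1, hdom⟩ := hG.extend t (hl t (by simp)) ht
    obtain ⟨G2, hle2, hlG, hG2⟩ := ih hG1 (fun x hx => hl x (by simp [hx]))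
      (Subfield.closure (F ∪ {t.1})) (fun x hx => by
        refine (Subfield.closure_mono ?_) (hdom x hx)
        exact Set.union_subset_union_left _ (fun y hy => hF y hy)) h2
    refine ⟨G2, hle.trans hle2, ?_, hG2⟩
    intro x hx
    rcases List.mem_cons.1 hx with rfl | hx
    · exact hle2 htG
    · exact hlG x hx

lemma Good.extend_all [CharP κ p] {G : Subring (κ × S)} (hG : Good p J g G) :
    ∃ G', G ≤ G' ∧ Good p J g G' ∧ ∀ x : κ, x ∈ dom G' := by
  obtain ⟨M, hGM, hM⟩ := zorn_le_nonempty₀ {G : Subring (κ × S) | Good p J g G} (by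
    intro c hc hchain y hy
    have hne : c.Nonempty := ⟨y, hy⟩
    have hdir : DirectedOn (· ≤ ·) c := hchain.directedOn
    refine ⟨sSup c, ⟨?_, ?_, ?_⟩, fun z hz => le_sSup hz⟩
    · exact sSup_le fun z hz => (hc hz).le
    · intro x hx
      exact (le_sSup hy : y ≤ sSup c) ((hc hy).pow x hx)
    · intro d hd
      obtain ⟨z, hz, hzd⟩ := (Subring.mem_sSup_of_directedOn hne hdir).1 hd
      exact (hc hz).graph d hzd) G hG
  refine ⟨M, hGM, hM.1, fun x => ?_⟩
  by_contra hx
  have hMg : Good p J g M := hM.1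
  obtain ⟨c, hc⟩ := Ideal.Quotient.mk_surjective (g x)
  obtain ⟨G1, hle, htG, hG1, -⟩ := hMg.extend (x, c) ((mem_pairs J g _).2 hc.symm) hx
  have := hM.2 (show G1 ∈ {G : Subring (κ × S) | Good p J g G} from hG1) hle
  exact hx ((mem_dom _ _).2 ⟨c, this htG⟩)

omit hp in
lemma Good.hom {G : Subring (κ × S)} (hG : Good p J g G) (hdom : ∀ x : κ, x ∈ dom G) :
    ∃ h : κ →+* S, (∀ x, Ideal.Quotient.mk J (h x) = g x) ∧
      ∀ x : κ × S, x ∈ G → h x.1 = x.2 := by
  let φ : G →+* κ := (RingHom.fst κ S).comp G.subtype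
  have hφ : Function.Bijective φ := by
    refine ⟨?_, ?_⟩
    · rw [injective_iff_map_eq_zero]
      intro a ha
      have h1 : (a : κ × S).1 = 0 := ha
      have h2 : ((0, (a : κ × S).2) : κ × S) ∈ G := by
        rw [← h1]; exact a.2
      exact Subtype.ext (Prod.ext h1 (hG.graph _ h2))
    · intro x
      obtain ⟨c, hc⟩ := (mem_dom _ _).1 (hdom x)
      exact ⟨⟨_, hc⟩, rfl⟩
  let e := RingEquiv.ofBijective φ hφ
  have he : ∀ a : G, e.symm (a : κ × S).1 = a := fun a => e.symm_apply_apply a
  refine ⟨((RingHom.snd κ S).comp G.subtype).comp e.symm.toRingHom, ?_, ?_⟩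
  · intro x
    have h1 : ((e.symm x : G) : κ × S).1 = x := e.apply_symm_apply x
    have h2 := (mem_pairs J g _).1 (hG.le (e.symm x).2)
    rw [h1] at h2
    exact h2.symm
  · intro x hx
    have := he ⟨x, hx⟩
    change ((e.symm x.1 : G) : κ × S).2 = x.2
    rw [this]

end Graph

/-- Lifting of a field along a square-zero extension, with prescribed lifts of the entries of a
`p`-independent list. -/
theorem exists_lift_sq {κ : Type u} [Field κ] {S : Type v} [CommRing S] (p : ℕ)
    [Fact p.Prime] [CharP κ p] [Algebra (ZMod p) S]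
    (J : Ideal S) (hJ : J ^ 2 = ⊥) (g : κ →+* S ⧸ J) (l : List (κ × S))
    (hl : ∀ x ∈ l, Ideal.Quotient.mk J x.2 = g x.1)
    (hind : Indep (frobenius κ p).fieldRange (l.map Prod.fst)) :
    ∃ h : κ →+* S, (∀ x, Ideal.Quotient.mk J (h x) = g x) ∧ ∀ x ∈ l, h x.1 = x.2 := by
  rcases subsingleton_or_nontrivial S with hC | hC
  · have h0 : Subsingleton (S ⧸ J) := Ideal.Quotient.mk_surjective.subsingleton
    refine ⟨{ toFun := fun _ => 0
              map_one' := Subsingleton.elim _ _
              map_mul' := fun _ _ => Subsingleton.elim _ _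
              map_zero' := rfl
              map_add' := fun _ _ => Subsingleton.elim _ _ }, ?_, ?_⟩
    · intro x
      exact Subsingleton.elim _ _
    · intro x _
      exact Subsingleton.elim _ _
  · have : CharP S p := by
      exact charP_of_injective_algebraMap (algebraMap (ZMod p) S).injective p
    have hG0 := good_of_bot (p := p) (J := J) (g := g) hJ
    obtain ⟨G1, -, hlG, hG1⟩ := hG0.extend_list l (fun x hx => (mem_pairs J g x).2 (hl x hx).symm)
      (frobenius κ p).fieldRange (by
        rintro x hx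
        obtain ⟨c, y, hy, hyx⟩ := (mem_dom _ _).1 hx
        exact ⟨y.1, congrArg Prod.fst hyx⟩) hind
    obtain ⟨G2, hle, hG2, hdom⟩ := hG1.extend_all
    obtain ⟨h, h1, h2⟩ := hG2.hom hdom
    exact ⟨h, h1, fun x hx => h2 x (hle (hlG x hx))⟩

end Pool.Agent.Hx18.DF
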