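import Pool.Agent.Hx18.DF.Lift

/-!
Lifting of fields of characteristic `p` to complete rings with prescribed lifts of a finite
`p`-independent sequence.
-/

set_option autoImplicit false
set_option maxHeartbeats 400000

namespace Pool.Agent.Hx18.DF

universe u v

theorem formallySmooth_of_indep {κ : Type u} [Field κ] (p : ℕ) [Fact p.Prime] [CharP κ p]
    (n : ℕ) [Algebra (MvPolynomial (Fin n) (ZMod p)) κ]
    (hind : Indep (frobenius κ p).fieldRange
      (List.ofFn fun i => algebraMap (MvPolynomial (Fin n) (ZMod p)) κ (MvPolynomial.X i))) :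
    Algebra.FormallySmooth (MvPolynomial (Fin n) (ZMod p)) κ := by
  apply Algebra.FormallySmooth.of_comp_surjective
  intro B _ _ I hI f
  letI : Algebra (ZMod p) B :=
    ((algebraMap (MvPolynomial (Fin n) (ZMod p)) B).comp MvPolynomial.C).toAlgebra
  obtain ⟨h, h1, h2⟩ := exists_lift_sq (κ := κ) (S := B) p I hI f.toRingHom
    (List.ofFn fun i => (algebraMap (MvPolynomial (Fin n) (ZMod p)) κ (MvPolynomial.X i),
      algebraMap (MvPolynomial (Fin n) (ZMod p)) B (MvPolynomial.X i)))
    (by
      intro x hx
      obtain ⟨i, rfl⟩ := (List.mem_ofFn' _ _).1 hx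
      simp)
    (by
      rw [List.map_ofFn]
      exact hind)
  refine ⟨{ h with
    commutes' := ?_ }, ?_⟩
  · intro r
    have : h.comp (algebraMap (MvPolynomial (Fin n) (ZMod p)) κ) =
        algebraMap (MvPolynomial (Fin n) (ZMod p)) B := by
      apply MvPolynomial.ringHom_ext'
      · exact Subsingleton.elim _ _
      · intro i
        have := h2 _ ((List.mem_ofFn' _ _).2 ⟨i, rfl⟩)
        simpa using this
    exact congrArg (fun g => g r) this
  · apply AlgHom.ext
    intro x
    exact h1 x

/-- Lifting of a field of characteristic `p` to a complete ring, with prescribed lifts of the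
entries of a `p`-independent list. -/
theorem exists_lift_complete {κ : Type u} [Field κ] {S : Type v} [CommRing S] (p : ℕ)
    [Fact p.Prime] [CharP κ p] [Algebra (ZMod p) S]
    (J : Ideal S) [IsAdicComplete J S] (g : κ →+* S ⧸ J) (l : List (κ × S))
    (hl : ∀ x ∈ l, Ideal.Quotient.mk J x.2 = g x.1)
    (hind : Indep (frobenius κ p).fieldRange (l.map Prod.fst)) :
    ∃ h : κ →+* S, (∀ x, Ideal.Quotient.mk J (h x) = g x) ∧ ∀ x ∈ l, h x.1 = x.2 := by
  letI a1 : Algebra (MvPolynomial (Fin l.length) (ZMod p)) κ :=
    (MvPolynomial.eval₂Hom (ZMod.castHom dvd_rfl κ) (fun i => (l.get i).1)).toAlgebra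
  letI a2 : Algebra (MvPolynomial (Fin l.length) (ZMod p)) S :=
    (MvPolynomial.eval₂Hom (algebraMap (ZMod p) S) (fun i => (l.get i).2)).toAlgebra
  have e1 : ∀ i, algebraMap (MvPolynomial (Fin l.length) (ZMod p)) κ (MvPolynomial.X i) =
      (l.get i).1 := fun i => MvPolynomial.eval₂Hom_X' _ _ _
  have e2 : ∀ i, algebraMap (MvPolynomial (Fin l.length) (ZMod p)) S (MvPolynomial.X i) =
      (l.get i).2 := fun i => MvPolynomial.eval₂Hom_X' _ _ _
  have : Algebra.FormallySmooth (MvPolynomial (Fin l.length) (ZMod p)) κ := by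
    apply formallySmooth_of_indep
    have : (List.ofFn fun i => algebraMap (MvPolynomial (Fin l.length) (ZMod p)) κ
        (MvPolynomial.X i)) = l.map Prod.fst := by
      conv_rhs => rw [← List.ofFn_get l, List.map_ofFn]
      congr 1
      funext i
      exact e1 i
    rw [this]
    exact hind
  let f : κ →ₐ[MvPolynomial (Fin l.length) (ZMod p)] S ⧸ J :=
    { g with
      commutes' := fun r => by
        have : g.comp (algebraMap (MvPolynomial (Fin l.length) (ZMod p)) κ) =
            (Ideal.Quotient.mk J).comp (algebraMap (MvPolynomial (Fin l.length) (ZMod p)) S) := by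
          apply MvPolynomial.ringHom_ext'
          · exact Subsingleton.elim _ _
          · intro i
            simp only [RingHom.comp_apply]
            rw [e1, e2]
            exact (hl _ (List.get_mem l i)).symm
        exact congrArg (fun g => g r) this }
  obtain ⟨h, hh⟩ := Algebra.FormallySmooth.exists_mkₐ_comp_eq_of_isAdicComplete f
  refine ⟨h.toRingHom, ?_, ?_⟩
  · intro x
    exact congrArg (fun g => g x) hh
  · intro x hx
    obtain ⟨i, rfl⟩ := List.get_of_mem hx
    rw [← e1 i, ← e2 i]
    exact h.commutes _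

end Pool.Agent.Hx18.DF
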