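import Pool.Agent.Hx18.DF.Eval

/-!
Polynomial expressions over a subfield containing the `p`-th powers, with exponents below `p`.
-/

set_option autoImplicit false
set_option maxHeartbeats 400000

namespace Pool.Agent.Hx18.DF

universe u v w

section

variable {κ : Type u} [Field κ] (F : Subfield κ) {T : Type v}

/-- value of a polynomial over `F` at a family of elements of the field -/
noncomputable abbrev evc (c : T → κ) : MvPolynomial T F →+* κ :=
  MvPolynomial.eval₂Hom F.subtype c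

lemma evc_monomial (c : T → κ) (α : T →₀ ℕ) (a : F) :
    evc F c (MvPolynomial.monomial α a) = a * α.prod fun t k => c t ^ k := by
  simp [evc, MvPolynomial.eval₂_monomial]

lemma exists_reduced_monomial (p : ℕ) (hp : 0 < p) (hF : ∀ x : κ, x ^ p ∈ F) (c : T → κ) (B : Set T)
    (α : T →₀ ℕ) (hα : ∀ t, α t ≠ 0 → t ∈ B) (a : F) :
    ∃ P : MvPolynomial T F, (∀ α ∈ P.support, ∀ t, α t ≠ 0 → α t < p ∧ t ∈ B) ∧
      evc F c P = evc F c (MvPolynomial.monomial α a) := by
  classical
  let α' : T →₀ ℕ := α.mapRange (· % p) (Nat.zero_mod p)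
  have hmem : (α.prod fun t k => (c t ^ (k / p)) ^ p) ∈ F :=
    Subfield.prod_mem _ fun t _ => hF _
  refine ⟨MvPolynomial.monomial α' (a * ⟨_, hmem⟩), ?_, ?_⟩
  · intro γ hγ t ht
    have h1 : γ = α' := by
      have := MvPolynomial.support_monomial_subset hγ
      simpa using this
    subst h1
    have h2 : α' t = α t % p := Finsupp.mapRange_apply ..
    refine ⟨?_, hα t ?_⟩
    · rw [h2]; exact Nat.mod_lt _ hp
    · intro h0
      apply ht
      rw [h2, h0, Nat.zero_mod]
  · rw [evc_monomial, evc_monomial]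
    have h3 : (α'.prod fun t k => c t ^ k) = α.prod fun t k => c t ^ (k % p) := by
      rw [Finsupp.prod_mapRange_index]
      intro t
      simp
    rw [h3, Subfield.coe_mul, mul_assoc]
    congr 1
    change (α.prod fun t k => (c t ^ (k / p)) ^ p) * _ = _
    rw [Finsupp.prod, Finsupp.prod, ← Finset.prod_mul_distrib, Finsupp.prod]
    refine Finset.prod_congr rfl fun t _ => ?_
    rw [← pow_mul, ← pow_add, mul_comm, Nat.div_add_mod]

lemma exists_reduced (p : ℕ) (hp : 0 < p) (hF : ∀ x : κ, x ^ p ∈ F) (c : T → κ) (B : Set T)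
    (Q : MvPolynomial T F) (hQ : ∀ α ∈ Q.support, ∀ t, α t ≠ 0 → t ∈ B) :
    ∃ P : MvPolynomial T F, (∀ α ∈ P.support, ∀ t, α t ≠ 0 → α t < p ∧ t ∈ B) ∧
      evc F c P = evc F c Q := by
  classical
  have key : ∀ s : Finset (T →₀ ℕ), (∀ α ∈ s, ∀ t, α t ≠ 0 → t ∈ B) →
      ∃ P : MvPolynomial T F, (∀ α ∈ P.support, ∀ t, α t ≠ 0 → α t < p ∧ t ∈ B) ∧
      evc F c P = evc F c (∑ α ∈ s, MvPolynomial.monomial α (Q.coeff α)) := by
    intro s
    induction s using Finset.induction_on with
    | empty => intro _; exact ⟨0, by simp, by simp⟩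
    | insert α s hα ih =>
      intro hs
      obtain ⟨P1, h1, h2⟩ := ih fun β hβ => hs β (Finset.mem_insert_of_mem hβ)
      obtain ⟨P2, h3, h4⟩ := exists_reduced_monomial F p hp hF c B α
        (hs α (Finset.mem_insert_self _ _)) (Q.coeff α)
      refine ⟨P2 + P1, ?_, ?_⟩
      · intro β hβ
        rcases Finset.mem_union.1 (MvPolynomial.support_add hβ) with h | h
        · exact h3 β h
        · exact h1 β h
      · rw [Finset.sum_insert hα, map_add, map_add, h2, h4]
  obtain ⟨P, h1, h2⟩ := key Q.support hQ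
  exact ⟨P, h1, by rw [h2, ← MvPolynomial.as_sum]⟩

lemma mem_supported_of (B : Set T) (Q : MvPolynomial T F) (hQ : Q ∈ MvPolynomial.supported F B) :
    ∀ α ∈ Q.support, ∀ t, α t ≠ 0 → t ∈ B := by
  intro α hα t ht
  apply (MvPolynomial.mem_supported.1 hQ)
  rw [Finset.mem_coe, MvPolynomial.mem_vars_iff_mem_support]
  exact ⟨α, hα, Finsupp.mem_support_iff.2 ht⟩

lemma exists_poly (p : ℕ) (hp : 0 < p) (hF : ∀ x : κ, x ^ p ∈ F) (c : T → κ) (B : Set T) (x : κ)
    (hx : x ∈ Subfield.closure ((F : Set κ) ∪ c '' B)) :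
    ∃ P : MvPolynomial T F, (∀ α ∈ P.support, ∀ t, α t ≠ 0 → α t < p ∧ t ∈ B) ∧
      evc F c P = x := by
  have key : ∃ Q ∈ MvPolynomial.supported F B, evc F c Q = x := by
    induction hx using Subfield.closure_induction with
    | mem x hx =>
      rcases hx with hx | ⟨t, ht, rfl⟩
      · refine ⟨MvPolynomial.C ⟨x, hx⟩, Subalgebra.algebraMap_mem _ _, by simp [evc]⟩
      · exact ⟨MvPolynomial.X t, MvPolynomial.X_mem_supported.2 ht, by simp [evc]⟩
    | one => exact ⟨1, Subalgebra.one_mem _, by simp⟩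
    | add x y _ _ hx hy =>
      obtain ⟨P, hP, rfl⟩ := hx
      obtain ⟨Q, hQ, rfl⟩ := hy
      exact ⟨P + Q, Subalgebra.add_mem _ hP hQ, by simp⟩
    | neg x _ hx =>
      obtain ⟨P, hP, rfl⟩ := hx
      exact ⟨-P, Subalgebra.neg_mem _ hP, by simp⟩
    | inv x _ hx =>
      obtain ⟨P, hP, hPx⟩ := hx
      by_cases h : x = 0
      · exact ⟨0, Subalgebra.zero_mem _, by simp [h]⟩
      · refine ⟨MvPolynomial.C ⟨(x⁻¹) ^ p, hF _⟩ * P ^ (p - 1),
          Subalgebra.mul_mem _ (Subalgebra.algebraMap_mem _ _) (Subalgebra.pow_mem _ hP _), ?_⟩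
        have h1 : evc F c (MvPolynomial.C ⟨(x⁻¹) ^ p, hF _⟩) = (x⁻¹) ^ p := by simp [evc]
        rw [map_mul, map_pow, hPx, h1]
        obtain ⟨k, rfl⟩ := Nat.exists_eq_add_of_le' hp
        rw [Nat.add_sub_cancel, pow_succ, mul_right_comm, ← mul_pow, inv_mul_cancel₀ h,
          one_pow, one_mul]
    | mul x y _ _ hx hy =>
      obtain ⟨P, hP, rfl⟩ := hx
      obtain ⟨Q, hQ, rfl⟩ := hy
      exact ⟨P * Q, Subalgebra.mul_mem _ hP hQ, by simp⟩
  obtain ⟨Q, hQ, rfl⟩ := key
  exact exists_reduced F p hp hF c B Q (mem_supported_of F B Q hQ)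

end

section

variable {κ : Type u} [Field κ] (F : Subfield κ) {T : Type v} {n : ℕ}

/-- value of a polynomial over `F` at a family of power series -/
noncomputable abbrev evs (n : ℕ) (β : T → MvPowerSeries (Fin n) κ) :
    MvPolynomial T F →+* MvPowerSeries (Fin n) κ :=
  MvPolynomial.eval₂Hom ((MvPowerSeries.C (σ := Fin n)).comp F.subtype) β

/-- the ideal of power series whose coefficients at the divisors of a given monomial vanish -/
def below (K : Fin n →₀ ℕ) : Ideal (MvPowerSeries (Fin n) κ) where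
  carrier := {r | ∀ L ≤ K, MvPowerSeries.coeff L r = 0}
  zero_mem' := fun L _ => by simp
  add_mem' := fun {a b} ha hb L hL => by rw [map_add, ha L hL, hb L hL, add_zero]
  smul_mem' := fun a b hb L hL => by
    classical
    rw [smul_eq_mul, MvPowerSeries.coeff_mul]
    refine Finset.sum_eq_zero fun x hx => ?_
    have h1 : x.2 ≤ K := by
      refine le_trans ?_ hL
      rw [← Finset.HasAntidiagonal.mem_antidiagonal.1 hx]
      exact le_add_self
    rw [hb x.2 h1, mul_zero]

lemma coeff_evs_congr (P : MvPolynomial T F) (β β' : T → MvPowerSeries (Fin n) κ)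
    (K : Fin n →₀ ℕ) (h : ∀ t ∈ P.vars, ∀ L ≤ K,
      MvPowerSeries.coeff L (β t) = MvPowerSeries.coeff L (β' t)) :
    MvPowerSeries.coeff K (evs F n β P) = MvPowerSeries.coeff K (evs F n β' P) := by
  have h1 : Ideal.Quotient.mk (below K) (evs F n β P) =
      Ideal.Quotient.mk (below K) (evs F n β' P) := by
    rw [evs, evs, MvPolynomial.map_eval₂Hom, MvPolynomial.map_eval₂Hom]
    apply MvPolynomial.eval₂Hom_congr' rfl _ rfl
    intro t ht _
    rw [Ideal.Quotient.eq]
    intro L hL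
    rw [map_sub, h t ht L hL, sub_self]
  rw [Ideal.Quotient.eq] at h1
  have h2 := h1 K le_rfl
  rw [map_sub, sub_eq_zero] at h2
  exact h2

lemma constantCoeff_evs (P : MvPolynomial T F) (β : T → MvPowerSeries (Fin n) κ) :
    MvPowerSeries.constantCoeff (evs F n β P) =
      evc F (fun t => MvPowerSeries.constantCoeff (β t)) P := by
  rw [evs, evc, MvPolynomial.map_eval₂Hom]
  congr 1

lemma coeff_evs (P : MvPolynomial T F) (β : T → MvPowerSeries (Fin n) κ) (A : Finset (T →₀ ℕ))
    (hA : P.support ⊆ A) (K : Fin n →₀ ℕ) :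
    MvPowerSeries.coeff K (evs F n β P) =
      ∑ α ∈ A, ((P.coeff α : F) : κ) * MvPowerSeries.coeff K (α.prod fun t k => β t ^ k) := by
  rw [evs, MvPolynomial.coe_eval₂Hom, MvPolynomial.eval₂_eq, map_sum]
  rw [← Finset.sum_subset hA]
  · refine Finset.sum_congr rfl fun α _ => ?_
    rw [RingHom.comp_apply, MvPowerSeries.coeff_C_mul]
    rfl
  · intro α _ hα
    rw [MvPolynomial.notMem_support_iff.1 hα]
    simp

end

end Pool.Agent.Hx18.DF
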