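import Pool.Agent.Hx18.DF.Decomp

/-!
A complete Noetherian local ring of characteristic `p` is a quotient of a power series ring over its
residue field by an ideal generated by power series with coefficients in a subfield which contains
the `p`-th powers and is finite over the subfield of `p`-th powers.
-/

set_option autoImplicit false
set_option maxHeartbeats 400000

namespace Pool.Agent.Hx18.DF

universe u v w

open Finset.HasAntidiagonal

section

variable {κ : Type u} [Field κ] (p : ℕ) [hp : Fact p.Prime] [CharP κ p]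

/-- A power series whose constant coefficient vanishes is in the ideal of the variables. -/
lemma mem_vars_of_constantCoeff {n : ℕ} (r : MvPowerSeries (Fin n) κ)
    (h : MvPowerSeries.constantCoeff r = 0) : r ∈ vars n κ := by
  have h1 := mem_pow_vars_of_truncTotal_eq_zero r 1 (by
    ext x
    by_cases hx : x.degree < 1
    · rw [MvPowerSeries.coeff_truncTotal _ hx]
      have h2 : x = 0 := by
        rw [Nat.lt_one_iff] at hx
        exact (Finsupp.degree_eq_zero_iff x).1 hx
      subst h2
      simpa using h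
    · rw [MvPowerSeries.coeff_truncTotal_eq_zero _ (not_lt.1 hx), MvPolynomial.coeff_zero])
  rwa [pow_one] at h1

/-- Finite extensions of the field of `p`-th powers. -/
lemma exists_finite_ext (S : Set κ) (hS : S.Finite) :
    ∃ (κ₁ : Subfield κ) (G : Finset κ), (frobenius κ p).fieldRange ≤ κ₁ ∧ S ⊆ κ₁ ∧
      (∀ g ∈ G, g ∈ κ₁) ∧ ∀ c ∈ κ₁, ∃ h : κ → κ, c = ∑ g ∈ G, g * (h g) ^ p := by
  classical
  let F : Subfield κ := (frobenius κ p).fieldRange
  have hfin : Finite S := hS
  have hint : ∀ x ∈ S, IsIntegral F x := by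
    intro x _
    refine IsIntegral.of_pow hp.out.pos ?_
    exact isIntegral_algebraMap (R := F) (A := κ) (x := ⟨x ^ p, x, rfl⟩)
  have hfd : FiniteDimensional F (IntermediateField.adjoin F S) :=
    IntermediateField.finiteDimensional_adjoin hint
  have hfg : (Subalgebra.toSubmodule (IntermediateField.adjoin F S).toSubalgebra).FG :=
    Module.Finite.iff_fg.1 hfd
  obtain ⟨G, hG⟩ := hfg
  refine ⟨(IntermediateField.adjoin F S).toSubfield, G, ?_, ?_, ?_, ?_⟩
  · intro x hx
    exact (IntermediateField.adjoin F S).algebraMap_mem ⟨x, hx⟩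
  · exact IntermediateField.subset_adjoin F S
  · intro g hg
    have : g ∈ Subalgebra.toSubmodule (IntermediateField.adjoin F S).toSubalgebra := by
      rw [← hG]; exact Submodule.subset_span hg
    exact this
  · intro c hc
    have h1 : c ∈ Submodule.span F (G : Set κ) := by
      rw [hG]; exact hc
    rw [Submodule.mem_span_finset] at h1
    obtain ⟨a, -, ha⟩ := h1
    choose h hh using fun g => (a g).2
    refine ⟨h, ?_⟩
    rw [← ha]
    refine Finset.sum_congr rfl fun g _ => ?_
    rw [Subfield.smul_def, smul_eq_mul, mul_comm]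
    congr 1
    exact (hh g).symm

lemma pow_mem_coefIn {n : ℕ} (F : Subfield κ) (hF : ∀ x : κ, x ^ p ∈ F)
    (r : MvPowerSeries (Fin n) κ) : r ^ p ∈ coefIn n F := by
  rw [mem_coefIn]
  intro μ
  rw [← MvPowerSeries.map_frobenius_expand p hp.out.ne_zero, MvPowerSeries.coeff_map]
  exact hF _

lemma monomial_mem_coefIn {n : ℕ} (F : Subfield κ) (γ : Fin n →₀ ℕ) :
    (MvPowerSeries.monomial γ (1 : κ)) ∈ coefIn n F := by
  classical
  rw [mem_coefIn]
  intro μ
  rw [MvPowerSeries.coeff_monomial]
  split_ifs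
  · exact F.one_mem
  · exact F.zero_mem

lemma monomial_eq_prod {n : ℕ} (γ : Fin n →₀ ℕ) :
    (MvPowerSeries.monomial γ (1 : κ)) = γ.prod fun i k => (MvPowerSeries.X i) ^ k := by
  rw [MvPowerSeries.monomial_eq']
  simp

/-- ring automorphisms fixing the variables preserve power series whose coefficients are `p`-th
powers -/
lemma map_coefIn {n : ℕ} (θ : MvPowerSeries (Fin n) κ →+* MvPowerSeries (Fin n) κ)
    (hX : ∀ i, θ (MvPowerSeries.X i) = MvPowerSeries.X i) (r : MvPowerSeries (Fin n) κ)
    (hr : r ∈ coefIn n (frobenius κ p).fieldRange) :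
    θ r ∈ coefIn n (frobenius κ p).fieldRange := by
  classical
  obtain ⟨s, rfl⟩ := hr
  let F : Subfield κ := (frobenius κ p).fieldRange
  let φ : κ →+* F := (frobenius κ p).rangeRestrictField
  have hφ : ∀ x : κ, F.subtype (φ x) = x ^ p := fun x => rfl
  obtain ⟨R, hR⟩ := exists_decomp (k₁ := F) (k := κ) hp.out.ne_zero φ {1} (by
    intro c
    obtain ⟨x, hx⟩ := c.2
    refine ⟨fun _ => x, ?_⟩
    rw [Finset.sum_singleton, one_mul]
    exact Subtype.ext hx.symm) s
  rw [hR, Finset.sum_singleton, map_sum, map_sum]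
  refine Subring.sum_mem _ fun γ _ => ?_
  rw [map_one, one_mul, map_mul, map_mul, map_map_expand hp.out.ne_zero F.subtype φ hφ, map_pow]
  refine Subring.mul_mem _ ?_ (pow_mem_coefIn p F (fun x => ⟨x, rfl⟩) _)
  have h1 : MvPowerSeries.map F.subtype (MvPowerSeries.monomial γ (1 : F)) =
      MvPowerSeries.monomial γ (1 : κ) := by
    rw [MvPowerSeries.map_monomial, map_one]
  rw [h1]
  have h2 : θ (MvPowerSeries.monomial γ (1 : κ)) = MvPowerSeries.monomial γ (1 : κ) := by
    rw [monomial_eq_prod, map_finsuppProd]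
    refine Finsupp.prod_congr fun i _ => ?_
    rw [map_pow, hX]
  rw [h2]
  exact monomial_mem_coefIn F γ

/-- The presentation theorem. -/
theorem exists_automorphism [Algebra (ZMod p) κ] {m n : ℕ} (f : Fin m → MvPowerSeries (Fin n) κ) :
    ∃ (θ : MvPowerSeries (Fin n) κ ≃+* MvPowerSeries (Fin n) κ) (κ₁ : Subfield κ) (G : Finset κ),
      (∀ i, θ (MvPowerSeries.X i) = MvPowerSeries.X i) ∧
      (∀ c : κ, MvPowerSeries.constantCoeff (θ (MvPowerSeries.C c)) = c) ∧
      (∀ x : κ, x ^ p ∈ κ₁) ∧ (∀ g ∈ G, g ∈ κ₁) ∧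
      (∀ c ∈ κ₁, ∃ h : κ → κ, c = ∑ g ∈ G, g * (h g) ^ p) ∧
      ∀ j, ∃ g ∈ coefIn n κ₁, θ g = f j := by
  classical
  let F : Subfield κ := (frobenius κ p).fieldRange
  obtain ⟨l, hind, hl⟩ := exists_expansion F p hp.out.pos (fun x => ⟨x, rfl⟩) f
  have hconst : ∀ r : MvPowerSeries (Fin n) κ, Ideal.Quotient.mk (vars n κ) r =
      Ideal.Quotient.mk (vars n κ) (MvPowerSeries.C (MvPowerSeries.constantCoeff r)) := by
    intro r
    rw [Ideal.Quotient.eq]
    apply mem_vars_of_constantCoeff
    simp
  have hconst' : ∀ r ∈ vars n κ, MvPowerSeries.constantCoeff r = 0 := by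
    intro r hr
    have : vars n κ ≤ RingHom.ker (MvPowerSeries.constantCoeff (σ := Fin n) (R := κ)) := by
      rw [Ideal.span_le]
      rintro _ ⟨i, rfl⟩
      rw [SetLike.mem_coe, RingHom.mem_ker]
      simp
    exact this hr
  obtain ⟨s, hs1, hs2⟩ := exists_lift_complete (κ := κ) (S := MvPowerSeries (Fin n) κ) p (vars n κ)
    ((Ideal.Quotient.mk (vars n κ)).comp MvPowerSeries.C)
    (l.map fun β => (MvPowerSeries.constantCoeff β, β))
    (by
      intro x hx
      obtain ⟨β, _, rfl⟩ := List.mem_map.1 hx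
      exact hconst β)
    (by
      rw [List.map_map]
      exact hind)
  have hs1' : ∀ c, MvPowerSeries.constantCoeff (s c) = c := by
    intro c
    have h1 := hs1 c
    rw [RingHom.comp_apply, Ideal.Quotient.eq] at h1
    have h2 := hconst' _ h1
    rw [map_sub, MvPowerSeries.constantCoeff_C, sub_eq_zero] at h2
    exact h2
  obtain ⟨θ₀, hθC, hθX⟩ := exists_eval (R := κ) (S := MvPowerSeries (Fin n) κ) (vars n κ) s
    MvPowerSeries.X (fun i => Ideal.subset_span ⟨i, rfl⟩)
  have hsurj : Function.Surjective θ₀ := by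
    refine eval_surjective (vars n κ) θ₀ _ hθX rfl ?_
    intro x
    refine ⟨MvPowerSeries.constantCoeff x, ?_⟩
    apply mem_vars_of_constantCoeff
    rw [map_sub, hθC, hs1', sub_self]
  have hinj := injective_of_surjective_ringHom θ₀ hsurj
  let θ : MvPowerSeries (Fin n) κ ≃+* MvPowerSeries (Fin n) κ :=
    RingEquiv.ofBijective θ₀ ⟨hinj, hsurj⟩
  have hθX' : ∀ i, θ (MvPowerSeries.X i) = MvPowerSeries.X i := hθX
  have hθC' : ∀ c, θ (MvPowerSeries.C c) = s c := hθC
  obtain ⟨κ₁, G, hFκ, hSκ, hGκ, hGspan⟩ := exists_finite_ext p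
    ({c | c ∈ l.map MvPowerSeries.constantCoeff} : Set κ) (List.finite_toSet _)
  have hpow : ∀ x : κ, x ^ p ∈ κ₁ := fun x => hFκ ⟨x, rfl⟩
  refine ⟨θ, κ₁, G, hθX', ?_, hpow, hGκ, hGspan, ?_⟩
  · intro c
    rw [hθC', hs1']
  · intro j
    have hle : Subring.closure ((coefIn n F : Set (MvPowerSeries (Fin n) κ)) ∪ {β | β ∈ l}) ≤
        (coefIn n κ₁).comap (θ.symm : MvPowerSeries (Fin n) κ →+* MvPowerSeries (Fin n) κ) := by
      rw [Subring.closure_le]
      rintro x (hx | hx)
      · have h1 := map_coefIn p (θ.symm : MvPowerSeries (Fin n) κ →+* MvPowerSeries (Fin n) κ)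
          (fun i => by
            rw [RingEquiv.coe_toRingHom, RingEquiv.symm_apply_eq]
            exact (hθX' i).symm) x hx
        rw [SetLike.mem_coe, Subring.mem_comap]
        rw [mem_coefIn] at h1 ⊢
        intro μ
        exact hFκ (h1 μ)
      · rw [SetLike.mem_coe, Subring.mem_comap, RingEquiv.coe_toRingHom]
        have h1 : θ.symm x = MvPowerSeries.C (MvPowerSeries.constantCoeff x) := by
          rw [RingEquiv.symm_apply_eq, hθC']
          exact (hs2 (MvPowerSeries.constantCoeff x, x) (List.mem_map.2 ⟨x, hx, rfl⟩)).symm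
        rw [h1, mem_coefIn]
        intro μ
        rw [MvPowerSeries.coeff_C]
        split_ifs
        · exact hSκ (List.mem_map.2 ⟨x, hx, rfl⟩)
        · exact κ₁.zero_mem
    exact ⟨θ.symm (f j), hle (hl j), θ.apply_symm_apply _⟩

end

section

open IsLocalRing

/-- The presentation theorem for complete local rings. -/
theorem exists_presentation (p : ℕ) [hp : Fact p.Prime] {A : Type u} [CommRing A]
    [Algebra (ZMod p) A] [IsLocalRing A] [IsNoetherianRing A]
    [IsAdicComplete (maximalIdeal A) A] :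
    ∃ (m n : ℕ) (π : MvPowerSeries (Fin n) (ResidueField A) →+* A)
      (f : Fin m → MvPowerSeries (Fin n) (ResidueField A))
      (κ₁ : Subfield (ResidueField A)) (G : Finset (ResidueField A)),
      Function.Surjective π ∧
      (∀ c : ResidueField A, residue A (π (MvPowerSeries.C c)) = c) ∧
      Ideal.span (Set.range fun i => π (MvPowerSeries.X i)) = maximalIdeal A ∧
      RingHom.ker π = Ideal.span (Set.range f) ∧
      (∀ j, f j ∈ coefIn n κ₁) ∧
      (∀ x : ResidueField A, x ^ p ∈ κ₁) ∧ (∀ g ∈ G, g ∈ κ₁) ∧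
      (∀ c ∈ κ₁, ∃ h : ResidueField A → ResidueField A, c = ∑ g ∈ G, g * (h g) ^ p) := by
  classical
  have hchar : CharP (ResidueField A) p :=
    charP_of_injective_algebraMap (algebraMap (ZMod p) (ResidueField A)).injective p
  obtain ⟨s₀, hs₀, -⟩ := exists_lift_complete (κ := ResidueField A) (S := A) p (maximalIdeal A)
    (RingHom.id _) [] (by simp) trivial
  obtain ⟨n, a, ha⟩ := Submodule.fg_iff_exists_fin_generating_family.1
    (IsNoetherian.noetherian (maximalIdeal A))
  have ha' : Ideal.span (Set.range a) = maximalIdeal A := ha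
  have haJ : ∀ i, a i ∈ maximalIdeal A := fun i => by
    rw [← ha']; exact Ideal.subset_span ⟨i, rfl⟩
  obtain ⟨π₀, hπC, hπX⟩ := exists_eval (R := ResidueField A) (maximalIdeal A) s₀ a haJ
  have hsurj₀ : Function.Surjective π₀ := by
    refine eval_surjective (maximalIdeal A) π₀ a hπX ha' fun x => ⟨residue A x, ?_⟩
    rw [hπC, ← Ideal.Quotient.eq]
    exact (hs₀ (residue A x)).symm
  obtain ⟨m, f₀, hf₀⟩ := Submodule.fg_iff_exists_fin_generating_family.1
    (IsNoetherian.noetherian (RingHom.ker π₀))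
  have hf₀' : Ideal.span (Set.range f₀) = RingHom.ker π₀ := hf₀
  obtain ⟨θ, κ₁, G, hθX, hθC, hpow, hGκ, hG, hθf⟩ := exists_automorphism p f₀
  choose f hfmem hff using hθf
  refine ⟨m, n, π₀.comp (θ : _ →+* _), f, κ₁, G, hsurj₀.comp θ.surjective, ?_, ?_, ?_, hfmem,
    hpow, hGκ, hG⟩
  · intro c
    have h1 : θ (MvPowerSeries.C c) - MvPowerSeries.C c ∈ vars n (ResidueField A) := by
      apply mem_vars_of_constantCoeff
      rw [map_sub, hθC, MvPowerSeries.constantCoeff_C, sub_self]
    have h2 : π₀ (θ (MvPowerSeries.C c) - MvPowerSeries.C c) ∈ maximalIdeal A := by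
      have h3 : vars n (ResidueField A) ≤ (maximalIdeal A).comap π₀ := by
        rw [Ideal.span_le]
        rintro _ ⟨i, rfl⟩
        rw [SetLike.mem_coe, Ideal.mem_comap, hπX]
        exact haJ i
      exact h3 h1
    rw [map_sub, hπC, ← Ideal.Quotient.eq] at h2
    rw [RingHom.comp_apply]
    change Ideal.Quotient.mk (maximalIdeal A) (π₀ (θ (MvPowerSeries.C c))) = c
    rw [h2, hs₀]
    rfl
  · rw [← ha']
    congr 2
    funext i
    rw [RingHom.comp_apply, RingEquiv.coe_toRingHom, hθX, hπX]
  · apply le_antisymm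
    · intro r hr
      have h1 : θ r ∈ Ideal.span (Set.range f₀) := by
        rw [hf₀', RingHom.mem_ker]; exact hr
      have h2 : (Ideal.span (Set.range f₀)).comap (θ : MvPowerSeries (Fin n) (ResidueField A) →+* _)
          = Ideal.span (Set.range f) := by
        have h3 : (Ideal.span (Set.range f)).map (θ : MvPowerSeries (Fin n) (ResidueField A) →+* _)
            = Ideal.span (Set.range f₀) := by
          rw [Ideal.map_span, ← Set.range_comp]
          congr 2
          funext j
          exact hff j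
        rw [← h3]
        exact Ideal.comap_map_of_bijective _ θ.bijective
      rw [← h2]
      exact h1
    · rw [Ideal.span_le]
      rintro _ ⟨j, rfl⟩
      rw [SetLike.mem_coe, RingHom.mem_ker, RingHom.comp_apply, RingEquiv.coe_toRingHom, hff j]
      have : f₀ j ∈ RingHom.ker π₀ := by
        rw [← hf₀']; exact Ideal.subset_span ⟨j, rfl⟩
      exact this

end

end Pool.Agent.Hx18.DF
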