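import Pool.Agent.Hx18.DF.Poly

/-!
The recursion producing, for finitely many power series `f j` over a field `κ` and a subfield `F`
containing the `p`-th powers, finitely many power series `β` whose constant coefficients are
sequentially independent over `F`, such that each `f j` is a polynomial in the `β` with coefficients
power series over `F`.
-/

set_option autoImplicit false
set_option maxHeartbeats 400000

namespace Pool.Agent.Hx18.DF

universe u v w

open Finset.HasAntidiagonal

/-- positions: an index and a monomial -/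
abbrev Pos (m n : ℕ) := Fin m × (Fin n →₀ ℕ)

variable {m n : ℕ} (ord : MonomialOrder (Fin n))

/-- the rank of a position -/
noncomputable def rk (t : Pos m n) : ord.syn ×ₗ Fin m := toLex (ord.toSyn t.2, t.1)

lemma rk_lt_iff (s t : Pos m n) : rk ord s < rk ord t ↔
    ord.toSyn s.2 < ord.toSyn t.2 ∨ ord.toSyn s.2 = ord.toSyn t.2 ∧ s.1 < t.1 :=
  Prod.Lex.toLex_lt_toLex

lemma rk_injective : Function.Injective (rk ord : Pos m n → _) := by
  intro s t h
  have h1 : (ord.toSyn s.2, s.1) = (ord.toSyn t.2, t.1) := toLex.injective h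
  have h2 := (Prod.mk.inj h1)
  exact Prod.ext h2.2 (ord.toSyn.injective h2.1)

lemma rk_wf : WellFounded fun s t : Pos m n => rk ord s < rk ord t :=
  InvImage.wf (rk ord) wellFounded_lt

lemma rk_add_lt (i j : Fin m) (M I K : Fin n →₀ ℕ) (h : rk ord (i, M) < rk ord (j, I)) :
    rk ord (i, M + K) < rk ord (j, I + K) := by
  rw [rk_lt_iff] at h ⊢
  simp only [map_add, add_lt_add_iff_right, add_left_inj] at h ⊢
  exact h

lemma rk_lt_of_lt (j : Fin m) (M I : Fin n →₀ ℕ) (h : M ≤ I) (hne : M ≠ I) :
    rk ord (j, M) < rk ord (j, I) := by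
  rw [rk_lt_iff]
  exact Or.inl (ord.toSyn_strictMono (lt_of_le_of_ne h hne))

lemma rk_le_of_le (j : Fin m) (M I : Fin n →₀ ℕ) (h : M ≤ I) :
    rk ord (j, M) ≤ rk ord (j, I) := by
  by_cases hne : M = I
  · rw [hne]
  · exact (rk_lt_of_lt ord j M I h hne).le

variable {κ : Type u} [Field κ] (F : Subfield κ)

/-- the data attached to a position -/
structure Dat (m n : ℕ) {κ : Type u} [Field κ] (F : Subfield κ) where
  /-- coefficient -/
  c : κ
  /-- whether the position is a block -/
  blk : Prop
  /-- polynomial -/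
  P : MvPolynomial (Pos m n) F

variable {F}

/-- `t = (j, M)` owns `(j, M + K)` -/
def isOwn (d : Pos m n → Dat m n F) (t : Pos m n) (K : Fin n →₀ ℕ) : Prop :=
  (d t).blk ∧ ∀ M' ≤ t.2 + K, (d (t.1, M')).blk → ord.toSyn t.2 ≤ ord.toSyn M'

/-- no block divides `t` -/
def unowned (d : Pos m n → Dat m n F) (t : Pos m n) : Prop :=
  ∀ M' ≤ t.2, ¬ (d (t.1, M')).blk

open Classical in
/-- the power series attached to a position -/
noncomputable def bet (d : Pos m n → Dat m n F) (t : Pos m n) : MvPowerSeries (Fin n) κ :=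
  fun K => if isOwn ord d t K then (d (t.1, t.2 + K)).c else 0

open Classical in
/-- the coefficient at a position from data at smaller positions -/
noncomputable def newc (f : Fin m → MvPowerSeries (Fin n) κ) (d : Pos m n → Dat m n F)
    (t : Pos m n) : κ :=
  MvPowerSeries.coeff t.2 (f t.1) - ∑ x ∈ antidiagonal t.2,
    if x.2 ≠ 0 ∧ unowned d (t.1, x.1) then
      MvPowerSeries.coeff x.2 (evs F n (bet ord d) (d (t.1, x.1)).P) else 0

/-- the blocks below a position -/
def blks (d : Pos m n → Dat m n F) (t : Pos m n) : Set (Pos m n) :=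
  {s | rk ord s < rk ord t ∧ (d s).blk}

/-- the field generated by the block coefficients at smaller positions -/
def newE (d : Pos m n → Dat m n F) (t : Pos m n) : Subfield κ :=
  Subfield.closure ((F : Set κ) ∪ (fun s => (d s).c) '' blks ord d t)

/-- whether a position is a block -/
def newblk (f : Fin m → MvPowerSeries (Fin n) κ) (d : Pos m n → Dat m n F) (t : Pos m n) : Prop :=
  (∀ M' ≤ t.2, M' ≠ t.2 → ¬ (d (t.1, M')).blk) ∧ newc ord f d t ∉ newE ord d t

/-- admissible polynomials at a position -/
def goodP (p : ℕ) (f : Fin m → MvPowerSeries (Fin n) κ) (d : Pos m n → Dat m n F) (t : Pos m n)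
    (P : MvPolynomial (Pos m n) F) : Prop :=
  (∀ α ∈ P.support, ∀ s, α s ≠ 0 → α s < p ∧ s ∈ blks ord d t) ∧
    evc F (fun s => (d s).c) P = newc ord f d t

open Classical in
/-- the new data at a position -/
noncomputable def newd (p : ℕ) (f : Fin m → MvPowerSeries (Fin n) κ) (d : Pos m n → Dat m n F)
    (t : Pos m n) : Dat m n F where
  c := newc ord f d t
  blk := newblk ord f d t
  P := if h : ∃ P, goodP ord p f d t P then h.choose else 0

open Classical in
/-- truncation of data below a position -/
noncomputable def tr (d : Pos m n → Dat m n F) (t : Pos m n) : Pos m n → Dat m n F := fun s =>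
  if rk ord s < rk ord t then d s else ⟨0, False, 0⟩

open Classical in
/-- the data defined by recursion -/
noncomputable def dat (F : Subfield κ) (p : ℕ) (f : Fin m → MvPowerSeries (Fin n) κ) :
    Pos m n → Dat m n F :=
  (rk_wf ord).fix fun t prev =>
    newd ord p f (fun s => if h : rk ord s < rk ord t then prev s h else ⟨0, False, 0⟩) t

variable {ord}

lemma tr_of_lt (d : Pos m n → Dat m n F) (s t : Pos m n) (h : rk ord s < rk ord t) :
    tr ord d t s = d s := if_pos h

lemma dat_eq (p : ℕ) (f : Fin m → MvPowerSeries (Fin n) κ) (t : Pos m n) :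
    dat ord F p f t = newd ord p f (tr ord (dat ord F p f) t) t := by
  conv_lhs => rw [dat, WellFounded.fix_eq]
  congr 1

section

variable (p : ℕ) (f : Fin m → MvPowerSeries (Fin n) κ)

lemma blks_tr (d : Pos m n → Dat m n F) (t : Pos m n) :
    blks ord (tr ord d t) t = blks ord d t := by
  ext s
  constructor
  · rintro ⟨h1, h2⟩
    rw [tr_of_lt _ _ _ h1] at h2
    exact ⟨h1, h2⟩
  · rintro ⟨h1, h2⟩
    refine ⟨h1, ?_⟩
    rw [tr_of_lt _ _ _ h1]
    exact h2

lemma newE_tr (d : Pos m n → Dat m n F) (t : Pos m n) :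
    newE ord (tr ord d t) t = newE ord d t := by
  rw [newE, newE, blks_tr]
  congr 2
  apply Set.image_congr
  intro s hs
  rw [tr_of_lt _ _ _ hs.1]

lemma P_support (t : Pos m n) :
    ∀ α ∈ (dat ord F p f t).P.support, ∀ s, α s ≠ 0 → α s < p ∧ s ∈ blks ord (dat ord F p f) t := by
  classical
  have h : (dat ord F p f t).P = (newd ord p f (tr ord (dat ord F p f) t) t).P := by
    rw [← dat_eq]
  rw [h, newd]
  dsimp only
  split_ifs with hP
  · have h1 := hP.choose_spec.1
    rw [blks_tr] at h1
    exact h1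
  · intro α hα
    simp at hα

lemma mem_blks_of_mem_vars (t s : Pos m n) (hs : s ∈ (dat ord F p f t).P.vars) :
    s ∈ blks ord (dat ord F p f) t := by
  rw [MvPolynomial.mem_vars_iff_mem_support] at hs
  obtain ⟨α, hα, hαs⟩ := hs
  exact (P_support p f t α hα s (Finsupp.mem_support_iff.1 hαs)).2

lemma newc_tr (t : Pos m n) :
    newc ord f (tr ord (dat ord F p f) t) t = newc ord f (dat ord F p f) t := by
  classical
  rw [newc, newc]
  congr 1
  refine Finset.sum_congr rfl fun x hx => ?_
  have hx' := mem_antidiagonal.1 hx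
  by_cases hx2 : x.2 = 0
  · simp [hx2]
  have hle : x.1 ≤ t.2 := by rw [← hx']; exact le_self_add
  have hne : x.1 ≠ t.2 := by
    intro h
    rw [h] at hx'
    exact hx2 (by simpa using hx')
  have hlt : ∀ M' ≤ x.1, rk ord (t.1, M') < rk ord t := fun M' hM' =>
    lt_of_le_of_lt (rk_le_of_le ord t.1 M' x.1 hM') (rk_lt_of_lt ord t.1 x.1 t.2 hle hne)
  have hun : unowned (tr ord (dat ord F p f) t) (t.1, x.1) ↔
      unowned (dat ord F p f) (t.1, x.1) := by
    refine forall_congr' fun M' => forall_congr' fun hM' => ?_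
    rw [tr_of_lt _ _ _ (hlt M' hM')]
  by_cases hunx : unowned (dat ord F p f) (t.1, x.1)
  · rw [if_pos ⟨hx2, hun.2 hunx⟩, if_pos ⟨hx2, hunx⟩, tr_of_lt _ _ _ (hlt x.1 le_rfl)]
    apply coeff_evs_congr
    intro s hs L hL
    have hsb := mem_blks_of_mem_vars p f _ s hs
    have h1 : ∀ M' ≤ s.2 + L, rk ord (s.1, M') < rk ord t := by
      intro M' hM'
      have h2 : rk ord (s.1, M') ≤ rk ord (s.1, s.2 + x.2) :=
        rk_le_of_le ord s.1 _ _ (hM'.trans (add_le_add_right hL s.2))
      refine lt_of_le_of_lt h2 ?_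
      have h3 : rk ord (s.1, s.2 + x.2) < rk ord (t.1, x.1 + x.2) :=
        rk_add_lt ord s.1 t.1 s.2 x.1 x.2 hsb.1
      rw [hx'] at h3
      exact h3
    have hown : isOwn ord (tr ord (dat ord F p f) t) s L ↔ isOwn ord (dat ord F p f) s L := by
      have h2 : rk ord s < rk ord t := h1 s.2 le_self_add
      refine and_congr ?_ ?_
      · rw [tr_of_lt _ _ _ h2]
      · refine forall_congr' fun M' => forall_congr' fun hM' => ?_
        rw [tr_of_lt _ _ _ (h1 M' hM')]
    change (if _ then _ else _) = (if _ then _ else _)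
    rw [tr_of_lt _ _ _ (h1 _ le_rfl)]
    simp only [hown]
  · rw [if_neg (fun h => hunx (hun.1 h.2)), if_neg (fun h => hunx h.2)]

lemma c_eq (t : Pos m n) : (dat ord F p f t).c = newc ord f (dat ord F p f) t := by
  rw [← newc_tr]
  conv_lhs => rw [dat_eq]
  rfl

lemma blk_iff (t : Pos m n) : (dat ord F p f t).blk ↔
    (∀ M' ≤ t.2, M' ≠ t.2 → ¬ (dat ord F p f (t.1, M')).blk) ∧
      (dat ord F p f t).c ∉ newE ord (dat ord F p f) t := by
  have h : (dat ord F p f t).blk ↔ newblk ord f (tr ord (dat ord F p f) t) t := by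
    conv_lhs => rw [dat_eq]
    rfl
  rw [h, newblk, newE_tr, newc_tr, ← c_eq]
  refine and_congr ?_ Iff.rfl
  refine forall_congr' fun M' => forall_congr' fun hM' => forall_congr' fun hne => ?_
  rw [tr_of_lt _ _ _ (rk_lt_of_lt ord t.1 M' t.2 hM' hne)]

lemma evc_P (hp : 0 < p) (hF : ∀ x : κ, x ^ p ∈ F) (t : Pos m n)
    (ht : unowned (dat ord F p f) t) :
    evc F (fun s => (dat ord F p f s).c) (dat ord F p f t).P = (dat ord F p f t).c := by
  classical
  have hnb : ¬ (dat ord F p f t).blk := ht t.2 le_rfl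
  have hmem : (dat ord F p f t).c ∈ newE ord (dat ord F p f) t := by
    by_contra h
    exact hnb ((blk_iff p f t).2 ⟨fun M' hM' _ => ht M' hM', h⟩)
  have hex : ∃ P, goodP ord p f (tr ord (dat ord F p f) t) t P := by
    rw [← newE_tr, c_eq, ← newc_tr] at hmem
    exact exists_poly F p hp hF _ _ _ hmem
  have h : (dat ord F p f t).P = hex.choose := by
    have h1 : (dat ord F p f t).P = (newd ord p f (tr ord (dat ord F p f) t) t).P := by
      rw [← dat_eq]
    rw [h1, newd]
    dsimp only
    rw [dif_pos hex]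
  have h2 := hex.choose_spec.2
  rw [← h, newc_tr, ← c_eq] at h2
  rw [← h2]
  apply MvPolynomial.eval₂Hom_congr' rfl _ rfl
  intro s hs _
  rw [tr_of_lt _ _ _ (mem_blks_of_mem_vars p f t s hs).1]

lemma constantCoeff_bet (t : Pos m n) (ht : (dat ord F p f t).blk) :
    MvPowerSeries.constantCoeff (bet ord (dat ord F p f) t) = (dat ord F p f t).c := by
  classical
  rw [← MvPowerSeries.coeff_zero_eq_constantCoeff_apply]
  change (if _ then _ else _) = _
  rw [if_pos, add_zero]
  refine ⟨ht, fun M' hM' hb => ?_⟩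
  by_cases hne : M' = t.2
  · rw [hne]
  · rw [add_zero] at hM'
    exact absurd hb (((blk_iff p f t).1 ht).1 M' hM' hne)

lemma coeff_zero_evs (hp : 0 < p) (hF : ∀ x : κ, x ^ p ∈ F) (t : Pos m n)
    (ht : unowned (dat ord F p f) t) :
    MvPowerSeries.coeff 0 (evs F n (bet ord (dat ord F p f)) (dat ord F p f t).P) =
      (dat ord F p f t).c := by
  rw [MvPowerSeries.coeff_zero_eq_constantCoeff_apply, constantCoeff_evs, ← evc_P p f hp hF t ht]
  apply MvPolynomial.eval₂Hom_congr' rfl _ rfl
  intro s hs _
  exact constantCoeff_bet p f s (mem_blks_of_mem_vars p f t s hs).2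

open Classical in
/-- the first form of the expansion at unowned positions -/
lemma coeff_of_unowned (hp : 0 < p) (hF : ∀ x : κ, x ^ p ∈ F) (t : Pos m n)
    (ht : unowned (dat ord F p f) t) :
    MvPowerSeries.coeff t.2 (f t.1) = ∑ x ∈ antidiagonal t.2,
      if unowned (dat ord F p f) (t.1, x.1) then
      MvPowerSeries.coeff x.2 (evs F n (bet ord (dat ord F p f)) (dat ord F p f (t.1, x.1)).P)
      else 0 := by
  have h0 : ((t.2, 0) : (Fin n →₀ ℕ) × (Fin n →₀ ℕ)) ∈ antidiagonal t.2 :=
    mem_antidiagonal.2 (add_zero _)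
  have hc := c_eq (ord := ord) (F := F) p f t
  rw [newc, eq_sub_iff_add_eq] at hc
  rw [← hc, ← Finset.add_sum_erase _ _ h0, ← Finset.add_sum_erase _ _ h0]
  rw [if_neg (by simp), if_pos ht, zero_add]
  congr 1
  · exact (coeff_zero_evs p f hp hF t ht).symm
  · refine Finset.sum_congr rfl fun x hx => ?_
    have hx2 : x.2 ≠ 0 := by
      intro h
      have h1 := mem_antidiagonal.1 (Finset.mem_of_mem_erase hx)
      apply Finset.ne_of_mem_erase hx
      rw [h, add_zero] at h1
      exact Prod.ext h1 h
    simp [hx2]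

open Classical in
/-- the expansion at owned positions -/
lemma coeff_of_owned (t : Pos m n) (ht : ¬ unowned (dat ord F p f) t) :
    MvPowerSeries.coeff t.2 (f t.1) = (∑ x ∈ antidiagonal t.2,
      if unowned (dat ord F p f) (t.1, x.1) then
      MvPowerSeries.coeff x.2 (evs F n (bet ord (dat ord F p f)) (dat ord F p f (t.1, x.1)).P)
      else 0) + (dat ord F p f t).c := by
  have hc := c_eq (ord := ord) (F := F) p f t
  rw [newc, eq_sub_iff_add_eq, add_comm] at hc
  rw [← hc]
  congr 1
  refine Finset.sum_congr rfl fun x hx => ?_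
  by_cases hx2 : x.2 = 0
  · have h1 := mem_antidiagonal.1 hx
    rw [hx2, add_zero] at h1
    rw [if_neg (by simp [hx2]), if_neg]
    rw [h1]
    exact ht
  · simp [hx2]

/-- the blocks are finite in number -/
lemma blk_finite : {t : Pos m n | (dat ord F p f t).blk}.Finite := by
  have h1 : ∀ j : Fin m, {M : Fin n →₀ ℕ | (dat ord F p f (j, M)).blk}.Finite := by
    intro j
    apply WellQuasiOrderedLE.finite_of_isAntichain
    intro M hM M' hM' hne hle
    exact ((blk_iff p f (j, M')).1 hM').1 M hle hne hM
  have h2 : {t : Pos m n | (dat ord F p f t).blk} ⊆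
      ⋃ j : Fin m, (fun M => ((j, M) : Pos m n)) '' {M | (dat ord F p f (j, M)).blk} := by
    intro t ht
    exact Set.mem_iUnion.2 ⟨t.1, t.2, ht, rfl⟩
  exact (Set.finite_iUnion fun j => (h1 j).image _).subset h2

/-- a list of the blocks whose coefficients are sequentially independent -/
lemma exists_list (S : Finset (Pos m n)) (hS : ∀ t ∈ S, (dat ord F p f t).blk) (E : Subfield κ)
    (hE : ∀ t ∈ S, E ≤ newE ord (dat ord F p f) t) :
    ∃ l : List (Pos m n), (∀ t, t ∈ l ↔ t ∈ S) ∧ Indep E (l.map fun t => (dat ord F p f t).c) := by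
  classical
  induction hk : S.card generalizing S E with
  | zero =>
    rw [Finset.card_eq_zero] at hk
    subst hk
    exact ⟨[], by simp, trivial⟩
  | succ k ih =>
    have hne : S.Nonempty := by
      rw [← Finset.card_pos]; omega
    obtain ⟨t, htS, htmin⟩ := S.exists_min_image (rk ord) hne
    obtain ⟨l, h1, h2⟩ := ih (S.erase t) (fun s hs => hS s (Finset.mem_of_mem_erase hs))
      (Subfield.closure ((E : Set κ) ∪ {(dat ord F p f t).c})) (by
        intro s hs
        have hsS := Finset.mem_of_mem_erase hs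
        have hlt : rk ord t < rk ord s := by
          refine lt_of_le_of_ne (htmin s hsS) fun h => ?_
          exact Finset.ne_of_mem_erase hs (rk_injective ord h).symm
        rw [Subfield.closure_le]
        rintro x (hx | hx)
        · exact hE s hsS hx
        · rw [Set.mem_singleton_iff] at hx
          subst hx
          exact Subfield.subset_closure (Or.inr ⟨t, ⟨hlt, hS t htS⟩, rfl⟩))
      (by rw [Finset.card_erase_of_mem htS, hk]; rfl)
    refine ⟨t :: l, ?_, ?_, h2⟩
    · intro s
      rw [List.mem_cons, h1, Finset.mem_erase]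
      constructor
      · rintro (rfl | h)
        · exact htS
        · exact h.2
      · intro h
        by_cases hst : s = t
        · exact Or.inl hst
        · exact Or.inr ⟨hst, h⟩
    · intro h
      exact ((blk_iff p f t).1 (hS t htS)).2 (hE t htS h)

end

end Pool.Agent.Hx18.DF
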